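import Mathlib
import Pool.Agent.H23.L.Nb.GC

set_option autoImplicit false

/-!
The counting criterion for graphs, with a `q`-element that normalises (instead of centralises)
the family of commuting elements of order `p`.
-/

namespace Pool.Agent.H23.EV

open Finset Pool.Agent.H98R2.Ev Pool.Agent.H98R2.Nb Pool.Agent.H98R2.Nb.N3

open Classical in
theorem graph_criterion {V : Type} [Fintype V] [DecidableEq V]
    (P : SimpleGraph V → Prop)
    (hdown : ∀ G G' : SimpleGraph V, G ≤ G' → P G' → P G)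
    (hiso : ∀ (s : Equiv.Perm V) (G : SimpleGraph V), P G → P (G.map s.toEmbedding))
    (hbot : P ⊥) (hne : NE (univ : Finset (EV V)) (fun S => P (toG S)))
    {ι : Type} [Fintype ι] (p q t : ℕ) [Fact p.Prime] [Fact q.Prime]
    (a : ι → Equiv.Perm V) (c h : Equiv.Perm V)
    (hcomm : ∀ i j, a i * a j = a j * a i) (hap : ∀ i, a i ^ p = 1) (hht : h ^ (q ^ t) = 1)
    (hah : ∀ G : SimpleGraph V, (∀ i, Inv (a i) G) → ∀ i, Inv (h⁻¹ * a i * h) G)
    (hac : ∀ G : SimpleGraph V, (∀ i, Inv (a i) G) → ∀ i, Inv (c⁻¹ * a i * c) G)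
    (hch : ∀ G : SimpleGraph V, (∀ i, Inv (a i) G) → Inv c G → Inv (h⁻¹ * c * h) G)
    {Ω : Type} [Fintype Ω] [DecidableEq Ω] (g : Finset Ω → SimpleGraph V)
    (hg : ∀ A B, g A ≤ g B ↔ A ⊆ B)
    (hga : ∀ A i, Inv (a i) (g A)) (hgc : ∀ A, Inv c (g A)) (hgh : ∀ A, Inv h (g A))
    (hgs : ∀ G, P G → (∀ i, Inv (a i) G) → Inv c G → Inv h G → ∃ A, g A = G) :
    (q : ℤ) ∣ ∑ A : Finset Ω, if P (g A) then (-1 : ℤ) ^ A.card else 0 := by
  have hD : ∀ (s : Equiv.Perm V) (S : Finset (EV V)), P (toG S) →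
      P (toG (S.map (ep s).toEmbedding)) := by
    intro s S hS
    rw [toG_map]
    exact hiso s _ hS
  have key := N3.count_criterion_full (E := EV V) (fun S => P (toG S))
    (fun S T hST hT => hdown _ _ (toG_mono15 hST) hT)
    hne (by rw [toG_empty]; exact hbot) p q t (fun i => ep (a i)) (ep c) (ep h)
    (fun i j => by rw [← ep_mul, ← ep_mul, hcomm]) (fun i => by rw [← ep_pow, hap, ep_one])
    (by rw [← ep_pow, hht, ep_one]) (fun i => hD (a i)) (hD c) (hD h)
    (by
      intro S hS i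
      have h1 : ∀ i, Inv (a i) (toG S) := fun i => (inv_iff (a i) S).1 (hS i)
      rw [inv_iff, toG_map]
      exact inv_map _ _ _ (hac (toG S) h1 i))
    (by
      intro S hS hSc
      have h1 : ∀ i, Inv (a i) (toG S) := fun i => (inv_iff (a i) S).1 (hS i)
      have h2 : Inv c (toG S) := (inv_iff c S).1 hSc
      constructor
      · intro i
        rw [inv_iff, toG_map]
        exact inv_map _ _ _ (hah (toG S) h1 i)
      · rw [inv_iff, toG_map]
        exact inv_map _ _ _ (hch (toG S) h1 h2))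
    (fun A => ES (g A)) (fun A B => (ES_mono _ _).trans (hg A B))
    (by
      intro A
      refine ⟨fun i => ?_, ?_, ?_⟩
      · rw [inv_iff, toG_ES]
        exact hga A i
      · rw [inv_iff, toG_ES]
        exact hgc A
      · rw [inv_iff, toG_ES]
        exact hgh A)
    (by
      intro S hS h1 h2 h3
      obtain ⟨A, hA⟩ := hgs (toG S) hS (fun i => (inv_iff (a i) S).1 (h1 i))
        ((inv_iff c S).1 h2) ((inv_iff h S).1 h3)
      refine ⟨A, ?_⟩
      show ES (g A) = S
      rw [hA, ES_toG])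
  have e1 : ∑ A : Finset Ω, (if P (g A) then (-1 : ℤ) ^ A.card else 0) =
      ∑ A ∈ univ.filter (fun A : Finset Ω => P (toG (ES (g A)))), (-1 : ℤ) ^ A.card := by
    rw [Finset.sum_filter]
    apply Finset.sum_congr rfl
    intro A _
    rw [toG_ES]
  rw [e1]
  exact key

end Pool.Agent.H23.EV
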