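import Mathlib
import Pool.Agent.H23.L.W.Count
import Pool.Agent.H23.EV.GCr

set_option autoImplicit false
set_option linter.unusedSectionVars false

/-!
The criterion for a vertex set with a block map to `ZMod m ⊕ J`, where the first `m` blocks are
rotated by the cyclic element.
-/

namespace Pool.Agent.H23.EV

open Finset Pool.Agent.H98R2.Ev Pool.Agent.TH410.KV
open Pool.Agent.H98R2.Nb (Inv Has)

section Rot

variable {m : ℕ} {J : Type} [DecidableEq J]

/-- the graph on the blocks `ZMod m ⊕ J` given by a graph on `Option J` and a flag: with the flag,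
all pairs of the `m` rotated blocks are adjacent -/
def Ga (A : Finset (EV (Option J) ⊕ Unit)) : SimpleGraph (ZMod m ⊕ J) where
  Adj x y := (toG A.toLeft).Adj (col m x) (col m y) ∨
    (() ∈ A.toRight ∧ x ≠ y ∧ col m x = none ∧ col m y = none)
  symm := ⟨by
    rintro x y (h | ⟨h, h1, h2, h3⟩)
    · exact Or.inl h.symm
    · exact Or.inr ⟨h, h1.symm, h3, h2⟩⟩
  loopless := ⟨by
    rintro x (h | ⟨_, h1, _, _⟩)
    · exact (toG A.toLeft).loopless.irrefl _ h
    · exact h1 rfl⟩

theorem Ga_adj (A : Finset (EV (Option J) ⊕ Unit)) (x y : ZMod m ⊕ J) :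
    (Ga A).Adj x y ↔ (toG A.toLeft).Adj (col m x) (col m y) ∨
    (() ∈ A.toRight ∧ x ≠ y ∧ col m x = none ∧ col m y = none) := Iff.rfl

/-- the permutation of the blocks: rotation -/
abbrev rotS (m : ℕ) (J : Type) : Equiv.Perm (ZMod m ⊕ J) := rot m

/-- the permutation of the blocks: multiplication by a unit -/
def mulS (u : (ZMod m)ˣ) (J : Type) : Equiv.Perm (ZMod m ⊕ J) :=
  Equiv.sumCongr (Units.mulLeft u) (Equiv.refl J)

theorem col_mulS (u : (ZMod m)ˣ) (x : ZMod m ⊕ J) : col m (mulS u J x) = col m x := by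
  rcases x with i | w <;> rfl

theorem Ga_inv (A : Finset (EV (Option J) ⊕ Unit)) (s : Equiv.Perm (ZMod m ⊕ J))
    (hs : ∀ x, col m (s x) = col m x) : Inv s (Ga (m := m) A) := by
  intro x y h
  rw [Ga_adj] at h ⊢
  rw [hs, hs]
  rcases h with h | ⟨h, h1, h2, h3⟩
  · exact Or.inl h
  · exact Or.inr ⟨h, fun h4 => h1 (s.injective h4), h2, h3⟩

/-- a symmetric relation on the rotated blocks is complete or empty -/
theorem compl_of (hm : NeZero m) (u : (ZMod m)ˣ)
    (hu : ∀ d d' : ZMod m, d ≠ 0 → d' ≠ 0 → ∃ k : ℕ, d' = (u : ZMod m) ^ k * d ∨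
      d' = -((u : ZMod m) ^ k * d))
    (Γ : SimpleGraph (ZMod m ⊕ J)) (h1 : Inv (rotS m J) Γ) (h2 : Inv (mulS u J) Γ)
    (i j : ZMod m) (hij : Γ.Adj (Sum.inl i) (Sum.inl j)) (i' j' : ZMod m) (hne : i' ≠ j') :
    Γ.Adj (Sum.inl i') (Sum.inl j') := by
  have htr : ∀ (n : ℕ) (x y : ZMod m), Γ.Adj (Sum.inl x) (Sum.inl y) →
      Γ.Adj (Sum.inl (x + n)) (Sum.inl (y + n)) := by
    intro n
    induction n with
    | zero => intro x y h; simpa using h
    | succ n ih =>
      intro x y h
      have h3 := h1 _ _ (ih x y h)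
      have e : ∀ x : ZMod m, (rotS m J) (Sum.inl (x + n)) = Sum.inl (x + (n + 1 : ℕ)) := by
        intro x
        show Sum.inl (x + n + 1) = _
        push_cast
        rw [add_assoc]
      rw [e, e] at h3
      exact h3
  have htr' : ∀ (t x y : ZMod m), Γ.Adj (Sum.inl x) (Sum.inl y) →
      Γ.Adj (Sum.inl (x + t)) (Sum.inl (y + t)) := by
    intro t x y h
    have h3 := htr t.val x y h
    rwa [ZMod.natCast_zmod_val] at h3
  have hmu : ∀ (k : ℕ) (x y : ZMod m), Γ.Adj (Sum.inl x) (Sum.inl y) →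
      Γ.Adj (Sum.inl ((u : ZMod m) ^ k * x)) (Sum.inl ((u : ZMod m) ^ k * y)) := by
    intro k
    induction k with
    | zero => intro x y h; simpa using h
    | succ k ih =>
      intro x y h
      have h3 := h2 _ _ (ih x y h)
      have e : ∀ x : ZMod m, (mulS u J) (Sum.inl ((u : ZMod m) ^ k * x)) =
          Sum.inl ((u : ZMod m) ^ (k + 1) * x) := by
        intro x
        show Sum.inl ((u : ZMod m) * ((u : ZMod m) ^ k * x)) = _
        rw [pow_succ']
        rw [mul_assoc]
      rw [e, e] at h3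
      exact h3
  have hd : j - i ≠ 0 := by
    intro h
    have : i = j := (sub_eq_zero.1 h).symm
    rw [this] at hij
    exact Γ.loopless.irrefl _ hij
  have hd' : j' - i' ≠ 0 := sub_ne_zero.2 hne.symm
  -- the edge from `0` to the difference
  have h0 : Γ.Adj (Sum.inl 0) (Sum.inl (j - i)) := by
    have := htr' (-i) i j hij
    rwa [add_neg_cancel, ← sub_eq_add_neg] at this
  obtain ⟨k, hk⟩ := hu (j - i) (j' - i') hd hd'
  have h3 := hmu k 0 (j - i) h0
  rw [mul_zero] at h3
  rcases hk with hk | hk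
  · rw [← hk] at h3
    have h4 := htr' i' 0 (j' - i') h3
    rwa [zero_add, sub_add_cancel] at h4
  · have h4 := htr' (j' - i') 0 _ h3
    have e : (u : ZMod m) ^ k * (j - i) + (j' - i') = 0 := by rw [hk]; ring
    rw [e, zero_add] at h4
    have h5 := htr' i' _ _ h4.symm
    rwa [zero_add, sub_add_cancel] at h5

/-- adjacency of a rotated block to another block does not depend on the rotated block -/
theorem side_of (hm : NeZero m) (Γ : SimpleGraph (ZMod m ⊕ J)) (h1 : Inv (rotS m J) Γ)
    (i i' : ZMod m) (j : J) (h : Γ.Adj (Sum.inl i) (Sum.inr j)) :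
    Γ.Adj (Sum.inl i') (Sum.inr j) := by
  have htr : ∀ (n : ℕ), Γ.Adj (Sum.inl (i + n)) (Sum.inr j) := by
    intro n
    induction n with
    | zero => simpa using h
    | succ n ih =>
      have h3 := h1 _ _ ih
      have e : (rotS m J) (Sum.inl (i + n)) = Sum.inl (i + (n + 1 : ℕ)) := by
        show Sum.inl (i + n + 1) = _
        push_cast
        rw [add_assoc]
      rw [e] at h3
      exact h3
  have h3 := htr (i' - i).val
  rwa [ZMod.natCast_zmod_val, add_sub_cancel] at h3

variable [Fintype J]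

/-- every symmetric graph on the blocks is one of the graphs `Ga A` -/
theorem exists_Ga (hm : NeZero m) (u : (ZMod m)ˣ)
    (hu : ∀ d d' : ZMod m, d ≠ 0 → d' ≠ 0 → ∃ k : ℕ, d' = (u : ZMod m) ^ k * d ∨
      d' = -((u : ZMod m) ^ k * d))
    (Γ : SimpleGraph (ZMod m ⊕ J)) (h1 : Inv (rotS m J) Γ) (h2 : Inv (mulS u J) Γ) :
    ∃ A : Finset (EV (Option J) ⊕ Unit), Ga A = Γ := by
  classical
  let sec : Option J → ZMod m ⊕ J := fun v => v.elim (Sum.inl 0) Sum.inr
  have hsec : ∀ v, col m (sec v) = v := by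
    rintro (_ | w) <;> rfl
  -- adjacency of different collapsed blocks
  have hind : ∀ x y x' y' : ZMod m ⊕ J, col m x = col m x' → col m y = col m y' →
      col m x ≠ col m y → Γ.Adj x y → Γ.Adj x' y' := by
    intro x y x' y' hx hy hne h
    rcases x with i | x <;> rcases x' with i' | x' <;> rcases y with j | y <;>
      rcases y' with j' | y' <;> simp only [col, Sum.elim_inl, Sum.elim_inr, Option.some.injEq,
        reduceCtorEq, ne_eq, not_true_eq_false] at hx hy hne
    · subst hy
      exact side_of hm Γ h1 i i' y h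
    · subst hx
      exact (side_of hm Γ h1 j j' x h.symm).symm
    · subst hx hy
      exact h
  let B : Finset (EV (Option J)) := univ.filter (fun e => ∃ x y : ZMod m ⊕ J,
    s(col m x, col m y) = e.1 ∧ Γ.Adj x y)
  let C : Finset Unit := if ∃ i j : ZMod m, Γ.Adj (Sum.inl i) (Sum.inl j) then univ else ∅
  refine ⟨B.disjSum C, ?_⟩
  have hl : (B.disjSum C).toLeft = B := by simp
  have hr : (B.disjSum C).toRight = C := by simp
  ext x y
  rw [Ga_adj, hl, hr, toG_adj]
  have hC : () ∈ C ↔ ∃ i j : ZMod m, Γ.Adj (Sum.inl i) (Sum.inl j) := by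
    by_cases hex : ∃ i j : ZMod m, Γ.Adj (Sum.inl i) (Sum.inl j)
    · simp [C, hex]
    · simp [C, hex]
  constructor
  · rintro (⟨hd, h⟩ | ⟨h, hne, hx, hy⟩)
    · rw [mem_filter] at h
      obtain ⟨_, x', y', hxy', hadj⟩ := h
      have hne : col m x ≠ col m y := fun h => hd (Sym2.mk_isDiag_iff.2 h)
      simp only [Sym2.eq_iff] at hxy'
      rcases hxy' with ⟨h3, h4⟩ | ⟨h3, h4⟩
      · exact hind x' y' x y h3 h4 (by rw [h3, h4]; exact hne) hadj
      · exact (hind x' y' y x h3 h4 (by rw [h3, h4]; exact hne.symm) hadj).symm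
    · rw [hC] at h
      obtain ⟨i, j, hij⟩ := h
      rcases x with x | x
      · rcases y with y | y
        · exact compl_of hm u hu Γ h1 h2 i j hij x y (fun h => hne (by rw [h]))
        · simp [col] at hy
      · simp [col] at hx
  · intro h
    by_cases hne : col m x = col m y
    · right
      have hxy : x ≠ y := h.ne
      rcases x with x | x
      · rcases y with y | y
        · exact ⟨hC.2 ⟨x, y, h⟩, hxy, rfl, rfl⟩
        · simp [col] at hne
      · rcases y with y | y
        · simp [col] at hne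
        · exfalso
          apply hxy
          simp only [col, Sum.elim_inr, Option.some.injEq] at hne
          rw [hne]
    · left
      refine ⟨fun hd => hne (Sym2.mk_isDiag_iff.1 hd), ?_⟩
      rw [mem_filter]
      exact ⟨mem_univ _, x, y, rfl, h⟩

theorem Ga_le (hm : 2 ≤ m) (A B : Finset (EV (Option J) ⊕ Unit)) :
    Ga (m := m) A ≤ Ga B ↔ A ⊆ B := by
  have : NeZero m := ⟨by omega⟩
  let sec : Option J → ZMod m ⊕ J := fun v => v.elim (Sum.inl 0) Sum.inr
  have hsec : ∀ v, col m (sec v) = v := by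
    rintro (_ | w) <;> rfl
  constructor
  · intro hle e he
    rcases e with ⟨e, hd⟩ | u
    · induction e using Sym2.ind with
      | _ a b =>
        have hA : (Ga (m := m) A).Adj (sec a) (sec b) := by
          rw [Ga_adj, hsec, hsec]
          exact Or.inl ((toG_adj _ _ _).2 ⟨hd, Finset.mem_toLeft.2 he⟩)
        have hB := hle hA
        rw [Ga_adj, hsec, hsec] at hB
        rcases hB with hB | ⟨_, _, h1, h2⟩
        · obtain ⟨_, h⟩ := (toG_adj _ _ _).1 hB
          exact Finset.mem_toLeft.1 h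
        · exact absurd (Sym2.mk_isDiag_iff.2 (h1.trans h2.symm)) hd
    · have h01 : (0 : ZMod m) ≠ 1 := by
        have : Fact (1 < m) := ⟨by omega⟩
        exact zero_ne_one
      have hA : (Ga (J := J) (m := m) A).Adj (Sum.inl 0) (Sum.inl 1) := by
        rw [Ga_adj]
        refine Or.inr ⟨Finset.mem_toRight.2 he, fun h => h01 (Sum.inl_injective h), rfl, rfl⟩
      have hB := hle hA
      rw [Ga_adj] at hB
      rcases hB with hB | ⟨h, _⟩
      · exact absurd hB ((toG B.toLeft).loopless.irrefl _)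
      · exact Finset.mem_toRight.1 h
  · intro h x y hxy
    rw [Ga_adj] at hxy ⊢
    rcases hxy with h1 | ⟨h1, h2⟩
    · refine Or.inl (toG_mono15 (fun e he => ?_) h1)
      exact Finset.mem_toLeft.2 (h (Finset.mem_toLeft.1 he))
    · exact Or.inr ⟨Finset.mem_toRight.2 (h (Finset.mem_toRight.1 h1)), h2⟩

end Rot

end Pool.Agent.H23.EV
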