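import Mathlib
import Pool.Agent.H23.EV.Rot

set_option autoImplicit false
set_option linter.unusedSectionVars false

/-!
The identity for the signed numbers that holds if containing a member is not evasive.
-/

namespace Pool.Agent.H23.EV

open Finset Pool.Agent.H98R2.Ev Pool.Agent.TH410.KV
open Pool.Agent.H98R2.Nb (Inv Has)
open Pool.Agent.W5h82.Ev (StableAt has_mono has_of_hom bad_xi)

variable {𝓕 : Pool.Agent.TH410.KV.Fam} {m : ℕ} {Y : Type} [DecidableEq Y] [Fintype Y]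

theorem sty_xi (m : ℕ) : sty (W := Y) m (xi : TY 𝓕) (fun _ => xi) = fun _ => xi := by
  funext v
  rcases v with v | v <;> rfl

theorem bad_Ga0 (hm : NeZero m) (B : Finset (EV (Option Y))) :
    Bad (fun _ : ZMod m ⊕ Y => (xi : TY 𝓕)) (Ga (B.disjSum ∅)) ↔
      Bad (oty (xi : TY 𝓕) (fun _ : Y => xi)) (toG B) := by
  rw [← merge0 m (xi : TY 𝓕) (fun _ : Y => xi) (Ga (B.disjSum ∅)) (toG B), sty_xi]
  intro x y
  rw [Ga_adj, Finset.toLeft_disjSum, Finset.toRight_disjSum]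
  simp

theorem bad_Ga1 (hm : NeZero m) (B : Finset (EV (Option Y))) :
    Bad (fun _ : ZMod m ⊕ Y => (xi : TY 𝓕)) (Ga (B.disjSum univ)) ↔
      Bad (oty (J m (xi : TY 𝓕)) (fun _ : Y => xi)) (toG B) := by
  rw [← merge1 m (xi : TY 𝓕) (fun _ : Y => xi) (Ga (B.disjSum univ)) (toG B), sty_xi]
  intro x y
  rw [Ga_adj, Finset.toLeft_disjSum, Finset.toRight_disjSum]
  simp [or_comm]

theorem Lb_oty (q : ℕ) [Fact q.Prime] (s : TY 𝓕) :
    NN q (oty s (fun _ : Y => (xi : TY 𝓕))) =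
      Lb 𝓕 q (cl q s * cl q (xi : TY 𝓕) ^ Fintype.card Y) := by
  rw [← Lb_prod, Fintype.prod_option]
  simp only [oty, Option.elim, prod_const, card_univ]

theorem sum_flag {M : Type} [AddCommMonoid M] (f : Finset (EV (Option Y) ⊕ Unit) → M) :
    ∑ A, f A = ∑ B : Finset (EV (Option Y)), (f (B.disjSum ∅) + f (B.disjSum univ)) := by
  classical
  rw [← Equiv.sum_comp (Finset.sumEquiv (α := EV (Option Y)) (β := Unit)).symm.toEquiv,
    Fintype.sum_prod_type]
  refine Finset.sum_congr rfl fun B _ => ?_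
  have h : (univ : Finset (Finset Unit)) = {∅, univ} := by decide
  rw [h, Finset.sum_pair (by decide)]
  rfl

open Classical in
theorem rot_identity (h0 : ∀ F : 𝓕, ¬ F.1.2.Colorable 1) {b : ℕ} (hst : StableAt 𝓕 b)
    (hm : 2 ≤ m) (u : (ZMod m)ˣ)
    (hu : ∀ d d' : ZMod m, d ≠ 0 → d' ≠ 0 → ∃ k : ℕ, d' = (u : ZMod m) ^ k * d ∨
      d' = -((u : ZMod m) ^ k * d))
    {V : Type} [Fintype V] [DecidableEq V]
    (β : V → ZMod m ⊕ Y) (hsurj : Function.Surjective β)
    (f : (ZMod m ⊕ Y) × Fin b → V) (hf : Function.Injective f) (hfb : ∀ z, β (f z) = z.1)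
    {ι : Type} [Fintype ι] (p q t : ℕ) [Fact p.Prime] [Fact q.Prime]
    (a : ι → Equiv.Perm V) (c h : Equiv.Perm V)
    (hcomm : ∀ i j, a i * a j = a j * a i) (hap : ∀ i, a i ^ p = 1) (hht : h ^ (q ^ t) = 1)
    (hah : ∀ G : SimpleGraph V, (∀ i, Inv (a i) G) → ∀ i, Inv (h⁻¹ * a i * h) G)
    (hac : ∀ G : SimpleGraph V, (∀ i, Inv (a i) G) → ∀ i, Inv (c⁻¹ * a i * c) G)
    (hch : ∀ G : SimpleGraph V, (∀ i, Inv (a i) G) → Inv c G → Inv (h⁻¹ * c * h) G)
    (hβa : ∀ i x, β (a i x) = β x) (hβc : ∀ x, β (c x) = rotS m Y (β x))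
    (hβh : ∀ x, β (h x) = mulS u Y (β x))
    (hstr : ∀ G : SimpleGraph V, ¬ Has 𝓕 G → (∀ i, Inv (a i) G) → Inv c G → Inv h G →
      ∃ Γ : SimpleGraph (ZMod m ⊕ Y), Γ.comap β = G)
    (hne : NE (univ : Finset (EV V)) (fun S => ¬ Has 𝓕 (toG S))) :
    Lb 𝓕 q (cl q (xi : TY 𝓕) ^ (Fintype.card Y + 1)) =
      Lb 𝓕 q (cl q (J m (xi : TY 𝓕)) * cl q (xi : TY 𝓕) ^ Fintype.card Y) := by
  have hmz : NeZero m := ⟨by omega⟩
  have hcol1 : ∀ x, col m (rotS m Y x) = col m x := fun x => col_rot m x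
  have hcol2 : ∀ x, col m (mulS u Y x) = col m x := fun x => col_mulS u x
  have key := graph_criterion (V := V) (fun G => ¬ Has 𝓕 G)
    (fun G G' hGG' hP h => hP (has_mono h (SimpleGraph.IsContained.of_le hGG')))
    (fun s G hP h => hP (has_mono h ⟨(SimpleGraph.Iso.map s G).symm.toCopy⟩))
    (by
      rintro ⟨H, hH, ⟨f⟩⟩
      apply h0 ⟨H, hH⟩
      refine ⟨SimpleGraph.Coloring.mk (fun _ => (0 : Fin 1)) ?_⟩
      intro u v huv
      exact (f.toHom.map_adj huv).elim)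
    hne p q t a c h hcomm hap hht hah hac hch
    (fun A : Finset (EV (Option Y) ⊕ Unit) => (Ga A).comap β)
    (by
      intro A B
      rw [← Ga_le hm A B]
      constructor
      · intro hle w w' hww
        obtain ⟨x, rfl⟩ := hsurj w
        obtain ⟨y, rfl⟩ := hsurj w'
        exact hle (show ((Ga A).comap β).Adj x y from hww)
      · intro hle x y hxy
        exact hle hxy)
    (by
      intro A i x y hxy
      rw [SimpleGraph.comap_adj] at hxy ⊢
      rw [hβa, hβa]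
      exact hxy)
    (by
      intro A x y hxy
      rw [SimpleGraph.comap_adj] at hxy ⊢
      rw [hβc, hβc]
      exact Ga_inv A _ hcol1 _ _ hxy)
    (by
      intro A x y hxy
      rw [SimpleGraph.comap_adj] at hxy ⊢
      rw [hβh, hβh]
      exact Ga_inv A _ hcol2 _ _ hxy)
    (by
      intro G hP hG1 hG2 hG3
      obtain ⟨Γ, hΓ⟩ := hstr G hP hG1 hG2 hG3
      have hr : Inv (rotS m Y) Γ := by
        intro w w' hww
        obtain ⟨x, rfl⟩ := hsurj w
        obtain ⟨y, rfl⟩ := hsurj w'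
        have h1 : G.Adj x y := by rw [← hΓ]; exact hww
        have h2 := hG2 _ _ h1
        rw [← hΓ, SimpleGraph.comap_adj, hβc, hβc] at h2
        exact h2
      have hmu : Inv (mulS u Y) Γ := by
        intro w w' hww
        obtain ⟨x, rfl⟩ := hsurj w
        obtain ⟨y, rfl⟩ := hsurj w'
        have h1 : G.Adj x y := by rw [← hΓ]; exact hww
        have h2 := hG3 _ _ h1
        rw [← hΓ, SimpleGraph.comap_adj, hβh, hβh] at h2
        exact h2
      obtain ⟨A, hA⟩ := exists_Ga hmz u hu Γ hr hmu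
      refine ⟨A, ?_⟩
      rw [← hΓ]
      exact congrArg (fun Γ : SimpleGraph (ZMod m ⊕ Y) => Γ.comap β) hA)
  -- the property in terms of homomorphisms
  have hQ : ∀ A : Finset (EV (Option Y) ⊕ Unit), Has 𝓕 ((Ga A).comap β) ↔
      Bad (fun _ : ZMod m ⊕ Y => (xi : TY 𝓕)) (Ga A) := by
    intro A
    rw [bad_xi]
    constructor
    · rintro ⟨H, hH, ⟨g⟩⟩
      exact ⟨H, hH, ⟨⟨fun x => β (g x), fun {x y} hxy => g.toHom.map_adj hxy⟩⟩⟩
    · rintro ⟨H, hH, ⟨κ⟩⟩
      exact has_of_hom hst (Ga A) β f hf hfb H hH κ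
  have key2 := (ZMod.intCast_zmod_eq_zero_iff_dvd _ q).2 key
  rw [sum_flag, Int.cast_sum] at key2
  have hterm : ∀ B : Finset (EV (Option Y)),
      (((if ¬ Has 𝓕 ((Ga (m := m) (B.disjSum ∅)).comap β) then
          (-1 : ℤ) ^ (B.disjSum (∅ : Finset Unit)).card else 0) +
        (if ¬ Has 𝓕 ((Ga (m := m) (B.disjSum univ)).comap β) then
          (-1 : ℤ) ^ (B.disjSum (univ : Finset Unit)).card else 0) : ℤ) : ZMod q) =
      ind q (oty (xi : TY 𝓕) (fun _ : Y => xi)) (toG B) * (-1) ^ B.card -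
      ind q (oty (J m (xi : TY 𝓕)) (fun _ : Y => xi)) (toG B) * (-1) ^ B.card := by
    intro B
    rw [hQ, hQ, bad_Ga0 hmz, bad_Ga1 hmz, Finset.card_disjSum, Finset.card_disjSum]
    unfold ind
    have hu1 : (univ : Finset Unit).card = 1 := by simp
    rw [hu1, Finset.card_empty, add_zero, pow_succ]
    by_cases h1 : Bad (oty (xi : TY 𝓕) (fun _ : Y => xi)) (toG B) <;>
      by_cases h2 : Bad (oty (J m (xi : TY 𝓕)) (fun _ : Y => xi)) (toG B)
    · simp [h1, h2]
    · simp [h1, h2]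
    · simp [h1, h2]
    · simp only [h1, h2, not_false_eq_true, if_true, if_false]
      push_cast
      ring
  have key3 : ∑ B : Finset (EV (Option Y)),
      (ind q (oty (xi : TY 𝓕) (fun _ : Y => xi)) (toG B) * (-1) ^ B.card -
      ind q (oty (J m (xi : TY 𝓕)) (fun _ : Y => xi)) (toG B) * (-1) ^ B.card) = 0 := by
    refine (Finset.sum_congr rfl fun B _ => ?_).trans key2
    rw [← hterm B]
    congr!
  rw [Finset.sum_sub_distrib] at key3
  have h1 := Lb_oty (𝓕 := 𝓕) (Y := Y) q xi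
  have h2 := Lb_oty (𝓕 := 𝓕) (Y := Y) q (J m xi)
  unfold NN at h1 h2
  rw [h1, h2, sub_eq_zero, ← pow_succ'] at key3
  exact key3

end Pool.Agent.H23.EV
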