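import Mathlib
import Pool.Agent.H23.EV.Cnt

set_option autoImplicit false
set_option linter.unusedSectionVars false

/-!
The group: field blocks, `m` of which are rotated, and cyclic blocks of pairwise coprime orders.
-/

namespace Pool.Agent.H23.EV

open Finset Pool.Agent.H98R2.Ev Pool.Agent.TH410.KV
open Pool.Agent.H98R2.Nb (Inv Has)

section Grp

variable (m : ℕ) (I L : Type) (s : L → ℕ) (K : Type)

/-- the vertex set -/
abbrev VG : Type := ((ZMod m ⊕ I) × K) ⊕ (Σ l : L, ZMod (s l))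

variable {m I L s K}

/-- the block of a vertex -/
def be : VG m I L s K → ZMod m ⊕ (I ⊕ L)
  | Sum.inl (Sum.inl j, _) => Sum.inl j
  | Sum.inl (Sum.inr i, _) => Sum.inr (Sum.inl i)
  | Sum.inr z => Sum.inr (Sum.inr z.1)

/-- the coarse position of a vertex -/
def kap : VG m I L s K → (ZMod m ⊕ I) ⊕ (Σ l : L, ZMod (s l)) := Sum.map Prod.fst id

theorem be_of_kap {x y : VG m I L s K} (h : kap x = kap y) : be x = be y := by
  rcases x with ⟨w, x⟩ | x <;> rcases y with ⟨w', y⟩ | y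
  · have h1 : w = w' := Sum.inl_injective h
    subst h1
    rcases w with w | w <;> rfl
  · cases h
  · cases h
  · have h1 : x = y := Sum.inr_injective h
    subst h1
    rfl

variable [Field K]

/-- translations of the field blocks -/
def ta (t : ZMod m ⊕ I → K) : Equiv.Perm (VG m I L s K) :=
  Equiv.sumCongr (Equiv.prodShear (Equiv.refl _) (fun w => Equiv.addRight (t w))) (Equiv.refl _)

/-- the factor of the block -/
def gam (g : Kˣ) : ZMod m ⊕ I → Kˣ := Sum.elim (fun j => if j = 0 then g else 1) (fun _ => g)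

/-- the cyclic element -/
def cc (g : Kˣ) : Equiv.Perm (VG m I L s K) :=
  Equiv.sumCongr (Equiv.prodShear (rotS m I) (fun w => Units.mulLeft (gam g w)))
    (Equiv.sigmaCongrRight fun _ => Equiv.addRight 1)

/-- the element of `q`-power order -/
def hh (u : (ZMod m)ˣ) (w : ∀ l, (ZMod (s l))ˣ) : Equiv.Perm (VG m I L s K) :=
  Equiv.sumCongr (Equiv.prodShear (mulS u I) (fun _ => Equiv.refl K))
    (Equiv.sigmaCongrRight fun l => Units.mulLeft (w l))

theorem ta_inl (t : ZMod m ⊕ I → K) (w : ZMod m ⊕ I) (x : K) :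
    (ta t : Equiv.Perm (VG m I L s K)) (Sum.inl (w, x)) = Sum.inl (w, x + t w) := rfl

theorem ta_inr (t : ZMod m ⊕ I → K) (z : Σ l : L, ZMod (s l)) :
    (ta t : Equiv.Perm (VG m I L s K)) (Sum.inr z) = Sum.inr z := rfl

theorem cc_inl (g : Kˣ) (w : ZMod m ⊕ I) (x : K) :
    (cc g : Equiv.Perm (VG m I L s K)) (Sum.inl (w, x)) =
      Sum.inl (rotS m I w, (gam g w : K) * x) := rfl

theorem cc_inr (g : Kˣ) (l : L) (y : ZMod (s l)) :
    (cc g : Equiv.Perm (VG m I L s K)) (Sum.inr ⟨l, y⟩) = Sum.inr ⟨l, y + 1⟩ := rfl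

theorem hh_inl (u : (ZMod m)ˣ) (w : ∀ l, (ZMod (s l))ˣ) (v : ZMod m ⊕ I) (x : K) :
    (hh u w : Equiv.Perm (VG m I L s K)) (Sum.inl (v, x)) = Sum.inl (mulS u I v, x) := rfl

theorem hh_inr (u : (ZMod m)ˣ) (w : ∀ l, (ZMod (s l))ˣ) (l : L) (y : ZMod (s l)) :
    (hh u w : Equiv.Perm (VG m I L s K)) (Sum.inr ⟨l, y⟩) =
      Sum.inr ⟨l, (w l : ZMod (s l)) * y⟩ := rfl

theorem be_ta (t : ZMod m ⊕ I → K) (x : VG m I L s K) : be (ta t x) = be x := by
  rcases x with ⟨w, x⟩ | x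
  · rcases w with w | w <;> rfl
  · rfl

theorem be_cc (g : Kˣ) (x : VG m I L s K) : be (cc g x) = rotS m (I ⊕ L) (be x) := by
  rcases x with ⟨w, x⟩ | x
  · rcases w with w | w <;> rfl
  · rfl

theorem be_hh (u : (ZMod m)ˣ) (w : ∀ l, (ZMod (s l))ˣ) (x : VG m I L s K) :
    be (hh u w x) = mulS u (I ⊕ L) (be x) := by
  rcases x with ⟨v, x⟩ | x
  · rcases v with v | v <;> rfl
  · rfl

theorem be_surj [∀ l, NeZero (s l)] :
    Function.Surjective (be : VG m I L s K → ZMod m ⊕ (I ⊕ L)) := by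
  rintro (j | i | l)
  · exact ⟨Sum.inl (Sum.inl j, 0), rfl⟩
  · exact ⟨Sum.inl (Sum.inr i, 0), rfl⟩
  · exact ⟨Sum.inr ⟨l, 0⟩, rfl⟩

theorem ta_comm (t t' : ZMod m ⊕ I → K) :
    (ta t : Equiv.Perm (VG m I L s K)) * ta t' = ta t' * ta t := by
  apply Equiv.ext
  rintro (⟨w, x⟩ | z)
  · rw [Equiv.Perm.mul_apply, Equiv.Perm.mul_apply, ta_inl, ta_inl, ta_inl, ta_inl,
      add_right_comm]
  · rw [Equiv.Perm.mul_apply, Equiv.Perm.mul_apply, ta_inr, ta_inr, ta_inr]

theorem ta_pow_inl (t : ZMod m ⊕ I → K) (n : ℕ) (w : ZMod m ⊕ I) (x : K) :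
    ((ta t : Equiv.Perm (VG m I L s K)) ^ n) (Sum.inl (w, x)) = Sum.inl (w, x + n * t w) := by
  induction n with
  | zero => simp
  | succ n ih =>
    rw [pow_succ', Equiv.Perm.mul_apply, ih, ta_inl]
    push_cast
    rw [add_mul, one_mul, add_assoc]

theorem ta_pow_inr (t : ZMod m ⊕ I → K) (n : ℕ) (z : Σ l : L, ZMod (s l)) :
    ((ta t : Equiv.Perm (VG m I L s K)) ^ n) (Sum.inr z) = Sum.inr z := by
  induction n with
  | zero => simp
  | succ n ih => rw [pow_succ', Equiv.Perm.mul_apply, ih, ta_inr]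

theorem ta_pow (p : ℕ) [CharP K p] (t : ZMod m ⊕ I → K) :
    (ta t : Equiv.Perm (VG m I L s K)) ^ p = 1 := by
  apply Equiv.ext
  rintro (⟨w, x⟩ | z)
  · rw [ta_pow_inl, CharP.cast_eq_zero, zero_mul, add_zero, Equiv.Perm.one_apply]
  · rw [ta_pow_inr, Equiv.Perm.one_apply]

theorem cc_ta (g : Kˣ) (t : ZMod m ⊕ I → K) :
    (cc g : Equiv.Perm (VG m I L s K))⁻¹ * ta t * cc g =
      ta (fun w => (((gam g w)⁻¹ : Kˣ) : K) * t (rotS m I w)) := by
  rw [mul_assoc, inv_mul_eq_iff_eq_mul]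
  apply Equiv.ext
  rintro (⟨w, x⟩ | ⟨l, y⟩)
  · rw [Equiv.Perm.mul_apply, Equiv.Perm.mul_apply, cc_inl, ta_inl, ta_inl, cc_inl, mul_add,
      Units.mul_inv_cancel_left]
  · rw [Equiv.Perm.mul_apply, Equiv.Perm.mul_apply, cc_inr, ta_inr, ta_inr, cc_inr]

theorem hh_ta (u : (ZMod m)ˣ) (w : ∀ l, (ZMod (s l))ˣ) (t : ZMod m ⊕ I → K) :
    (hh u w : Equiv.Perm (VG m I L s K))⁻¹ * ta t * hh u w =
      ta (fun v => t (mulS u I v)) := by
  rw [mul_assoc, inv_mul_eq_iff_eq_mul]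
  apply Equiv.ext
  rintro (⟨v, x⟩ | ⟨l, y⟩)
  · rw [Equiv.Perm.mul_apply, Equiv.Perm.mul_apply, hh_inl, ta_inl, ta_inl, hh_inl]
  · rw [Equiv.Perm.mul_apply, Equiv.Perm.mul_apply, hh_inr, ta_inr, ta_inr, hh_inr]

theorem hh_pow_inl (u : (ZMod m)ˣ) (w : ∀ l, (ZMod (s l))ˣ) (n : ℕ) (v : ZMod m ⊕ I) (x : K) :
    ((hh u w : Equiv.Perm (VG m I L s K)) ^ n) (Sum.inl (v, x)) =
      Sum.inl (mulS (u ^ n) I v, x) := by
  induction n with
  | zero =>
    rw [pow_zero, pow_zero, Equiv.Perm.one_apply]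
    rcases v with v | v
    · show _ = Sum.inl (Sum.inl (((1 : (ZMod m)ˣ) : ZMod m) * v), x)
      rw [Units.val_one, one_mul]
    · rfl
  | succ n ih =>
    rw [pow_succ', Equiv.Perm.mul_apply, ih, hh_inl]
    rcases v with v | v
    · show Sum.inl (Sum.inl ((u : ZMod m) * (((u ^ n : (ZMod m)ˣ) : ZMod m) * v)), x) =
        Sum.inl (Sum.inl (((u ^ (n + 1) : (ZMod m)ˣ) : ZMod m) * v), x)
      rw [pow_succ' u, Units.val_mul, mul_assoc]
    · rfl

theorem hh_pow_inr (u : (ZMod m)ˣ) (w : ∀ l, (ZMod (s l))ˣ) (n : ℕ) (l : L) (y : ZMod (s l)) :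
    ((hh u w : Equiv.Perm (VG m I L s K)) ^ n) (Sum.inr ⟨l, y⟩) =
      Sum.inr ⟨l, ((w l ^ n : (ZMod (s l))ˣ) : ZMod (s l)) * y⟩ := by
  induction n with
  | zero => simp
  | succ n ih =>
    rw [pow_succ', Equiv.Perm.mul_apply, ih, hh_inr, pow_succ' (w l), Units.val_mul, mul_assoc]

theorem hh_pow (u : (ZMod m)ˣ) (w : ∀ l, (ZMod (s l))ˣ) (n : ℕ) (hu : u ^ n = 1)
    (hw : ∀ l, w l ^ n = 1) : (hh u w : Equiv.Perm (VG m I L s K)) ^ n = 1 := by
  apply Equiv.ext
  rintro (⟨v, x⟩ | ⟨l, y⟩)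
  · rw [hh_pow_inl, hu, Equiv.Perm.one_apply]
    rcases v with v | v
    · show Sum.inl (Sum.inl (((1 : (ZMod m)ˣ) : ZMod m) * v), x) = _
      rw [Units.val_one, one_mul]
    · rfl
  · rw [hh_pow_inr, hw, Units.val_one, one_mul, Equiv.Perm.one_apply]

/-- powers of the cyclic element on the coarse positions -/
theorem kap_cc_inl (g : Kˣ) (n : ℕ) (w : ZMod m ⊕ I) (x : K) :
    kap (((cc g : Equiv.Perm (VG m I L s K)) ^ n) (Sum.inl (w, x))) =
      Sum.inl (((rotS m I) ^ n) w) := by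
  induction n with
  | zero => rfl
  | succ n ih =>
    rw [pow_succ', Equiv.Perm.mul_apply, pow_succ', Equiv.Perm.mul_apply]
    rcases h : ((cc g : Equiv.Perm (VG m I L s K)) ^ n) (Sum.inl (w, x)) with ⟨w', x'⟩ | z
    · rw [h] at ih
      have h1 : w' = ((rotS m I) ^ n) w := Sum.inl_injective ih
      rw [cc_inl, ← h1]
      rfl
    · rw [h] at ih
      cases ih

theorem cc_pow_inr (g : Kˣ) (n : ℕ) (l : L) (y : ZMod (s l)) :
    ((cc g : Equiv.Perm (VG m I L s K)) ^ n) (Sum.inr ⟨l, y⟩) = Sum.inr ⟨l, y + n⟩ := by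
  induction n with
  | zero => simp
  | succ n ih =>
    rw [pow_succ', Equiv.Perm.mul_apply, ih, cc_inr]
    push_cast
    rw [add_assoc]

theorem cc_pow_inl_inl (g : Kˣ) (n : ℕ) (j : ZMod m) (x : K) :
    ((cc g : Equiv.Perm (VG m I L s K)) ^ n) (Sum.inl (Sum.inl j, x)) =
      Sum.inl (Sum.inl (j + n),
        ((∏ i ∈ range n, (if j + (i : ZMod m) = 0 then g else 1) : Kˣ) : K) * x) := by
  induction n with
  | zero => simp
  | succ n ih =>
    rw [pow_succ', Equiv.Perm.mul_apply, ih, cc_inl, prod_range_succ, mul_comm (∏ _ ∈ _, _),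
      Units.val_mul, mul_assoc]
    have e1 : (rotS m I) (Sum.inl (j + (n : ZMod m))) = Sum.inl (j + ((n + 1 : ℕ) : ZMod m)) := by
      show Sum.inl (j + (n : ZMod m) + 1) = _
      push_cast
      rw [add_assoc]
    rw [e1]
    rfl

theorem prod_range_eq (hm : NeZero m) (g : Kˣ) (j : ZMod m) :
    (∏ i ∈ range m, (if j + (i : ZMod m) = 0 then g else 1) : Kˣ) = g := by
  rw [Finset.prod_eq_single (-j).val]
  · rw [ZMod.natCast_zmod_val, add_neg_cancel, if_pos rfl]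
  · intro i hi hne
    rw [if_neg]
    intro h
    apply hne
    have h1 : (i : ZMod m) = -j := by
      rw [eq_neg_iff_add_eq_zero, add_comm]
      exact h
    rw [← h1, ZMod.val_natCast, Nat.mod_eq_of_lt (mem_range.1 hi)]
  · intro h
    exact absurd (mem_range.2 (ZMod.val_lt _)) h

/-- some power of the cyclic element multiplies the block by the generator -/
theorem exists_mul (hm : NeZero m) (g : Kˣ) (w : ZMod m ⊕ I) : ∃ n : ℕ, ∀ x : K,
    ((cc g : Equiv.Perm (VG m I L s K)) ^ n) (Sum.inl (w, x)) = Sum.inl (w, (g : K) * x) := by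
  rcases w with j | i
  · refine ⟨m, fun x => ?_⟩
    rw [cc_pow_inl_inl, prod_range_eq hm, ZMod.natCast_self, add_zero]
  · refine ⟨1, fun x => ?_⟩
    rw [pow_one, cc_inl]
    rfl

theorem inv_pow {V : Type} {c : Equiv.Perm V} {G : SimpleGraph V} (h : Inv c G) (n : ℕ) :
    Inv (c ^ n) G := by
  induction n with
  | zero => exact fun x y h => h
  | succ n ih =>
    intro x y hxy
    rw [pow_succ', Equiv.Perm.mul_apply, Equiv.Perm.mul_apply]
    exact h _ _ (ih x y hxy)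

/-- an edge inside a field block of an invariant graph gives all edges of the block -/
theorem clique_of_edge (hm : NeZero m) (g : Kˣ) (hgen : ∀ x : Kˣ, ∃ n : ℕ, x = g ^ n)
    [DecidableEq I]
    (G : SimpleGraph (VG m I L s K)) (ha : ∀ t, Inv (ta t) G) (hc : Inv (cc g) G)
    (w : ZMod m ⊕ I) (x y : K) (hxy : G.Adj (Sum.inl (w, x)) (Sum.inl (w, y))) (a b : K)
    (hab : a ≠ b) : G.Adj (Sum.inl (w, a)) (Sum.inl (w, b)) := by
  classical
  have h1 : ∀ (t x y : K), G.Adj (Sum.inl (w, x)) (Sum.inl (w, y)) →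
      G.Adj (Sum.inl (w, x + t)) (Sum.inl (w, y + t)) := by
    intro t x y h
    exact ha (fun _ => t) _ _ h
  obtain ⟨n, hn⟩ := exists_mul (m := m) (I := I) (L := L) (s := s) hm g w
  have h2 : ∀ (u : ℕ) (x y : K), G.Adj (Sum.inl (w, x)) (Sum.inl (w, y)) →
      G.Adj (Sum.inl (w, ((g ^ u : Kˣ) : K) * x)) (Sum.inl (w, ((g ^ u : Kˣ) : K) * y)) := by
    intro u x y h
    induction u with
    | zero => simpa using h
    | succ u ih =>
      have h3 := inv_pow hc n _ _ ih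
      rw [hn, hn] at h3
      rw [pow_succ', Units.val_mul, mul_assoc, mul_assoc]
      exact h3
  have hne : x ≠ y := by
    rintro rfl
    exact G.irrefl hxy
  have hsub : x - y ≠ 0 := sub_ne_zero.2 hne
  have hab' : a - b ≠ 0 := sub_ne_zero.2 hab
  obtain ⟨u, hu⟩ := hgen (Units.mk0 ((a - b) / (x - y)) (div_ne_zero hab' hsub))
  have hu' : ((g ^ u : Kˣ) : K) = (a - b) / (x - y) := by rw [← hu]; rfl
  have h3 := h1 (b - ((g ^ u : Kˣ) : K) * y) _ _ (h2 u x y hxy)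
  have e1 : ((g ^ u : Kˣ) : K) * x + (b - ((g ^ u : Kˣ) : K) * y) = a := by
    have : ((g ^ u : Kˣ) : K) * (x - y) = a - b := by
      rw [hu', div_mul_cancel₀ _ hsub]
    linear_combination this
  have e2 : ((g ^ u : Kˣ) : K) * y + (b - ((g ^ u : Kˣ) : K) * y) = b := by
    ring
  rw [e1, e2] at h3
  exact h3

/-- a vertex can be moved inside its coarse position -/
theorem mvk (G : SimpleGraph (VG m I L s K)) (ha : ∀ t, Inv (ta t) G)
    (x y x' : VG m I L s K) (hb : kap x' = kap x) (hxy : kap x ≠ kap y) (h : G.Adj x y) :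
    G.Adj x' y := by
  classical
  rcases x with ⟨w, a⟩ | z <;> rcases x' with ⟨w', a'⟩ | z'
  · have h0 : w' = w := Sum.inl_injective hb
    subst h0
    have h1 := ha (Function.update (fun _ => 0) w' (a' - a)) _ _ h
    rw [ta_inl, Function.update_self, add_sub_cancel] at h1
    rcases y with ⟨w2, b⟩ | z2
    · have hne : w2 ≠ w' := fun h2 => hxy (by rw [h2]; rfl)
      rw [ta_inl, Function.update_of_ne hne, add_zero] at h1
      exact h1
    · rwa [ta_inr] at h1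
  · cases hb
  · cases hb
  · have h0 : z' = z := Sum.inr_injective hb
    rw [h0]
    exact h

theorem fullk (G : SimpleGraph (VG m I L s K)) (ha : ∀ t, Inv (ta t) G)
    (x y x' y' : VG m I L s K) (hx : kap x' = kap x) (hy : kap y' = kap y)
    (hxy : kap x ≠ kap y) (h : G.Adj x y) : G.Adj x' y' := by
  have h1 := mvk G ha x y x' hx hxy h
  have h2 := mvk G ha y x' y' hy (by rw [hx]; exact hxy.symm) h1.symm
  exact h2.symm

end Grp

end Pool.Agent.H23.EV
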