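import Mathlib
import Pool.Agent.H23.EV.Grp

set_option autoImplicit false
set_option linter.unusedSectionVars false

/-!
The structure of the invariant graphs, and the identity for `Fin n`.
-/

namespace Pool.Agent.H23.EV

open Finset Pool.Agent.H98R2.Ev Pool.Agent.TH410.KV
open Pool.Agent.H98R2.Nb (Inv Has)
open Pool.Agent.W5h82.Ev (StableAt has_mono has_of_hom bad_xi)

section Str

variable {m : ℕ} {I L : Type} [Fintype I] [DecidableEq I] {s : L → ℕ} {K : Type} [Field K]

/-- simultaneous congruences are solvable -/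
def CRT (m : ℕ) {L : Type} (s : L → ℕ) : Prop :=
  ∀ (e0 : ZMod m) (e : ∀ l, ZMod (s l)), ∃ k : ℕ, (k : ZMod m) = e0 ∧ ∀ l, (k : ZMod (s l)) = e l

theorem rot_pow_kap (n : ℕ) (w : ZMod m ⊕ I) (hn : (n : ZMod m) = 0) :
    ((rotS m I) ^ n) w = w := by
  rcases w with j | i
  · rw [rot_pow_inl, hn, add_zero]
  · rw [rot_pow_inr]

theorem kap_inr (g : Kˣ) (n : ℕ) (l : L) (y : ZMod (s l)) :
    kap (((cc g : Equiv.Perm (VG m I L s K)) ^ n) (Sum.inr ⟨l, y⟩)) = Sum.inr ⟨l, y + n⟩ := by
  rw [cc_pow_inr]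
  rfl

/-- adjacency of vertices in different blocks depends only on the blocks -/
theorem unif (hcrt : CRT m s) (g : Kˣ) (G : SimpleGraph (VG m I L s K))
    (ha : ∀ t, Inv (ta t) G) (hc : Inv (cc g) G) (x y x' y' : VG m I L s K)
    (hx : be x' = be x) (hy : be y' = be y) (hxy : be x ≠ be y) (h : G.Adj x y) :
    G.Adj x' y' := by
  classical
  -- it is enough to find a suitable power of the cyclic element
  suffices hk : ∃ k : ℕ, kap (((cc g : Equiv.Perm (VG m I L s K)) ^ k) x) = kap x' ∧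
      kap (((cc g : Equiv.Perm (VG m I L s K)) ^ k) y) = kap y' by
    obtain ⟨k, h1, h2⟩ := hk
    refine fullk G ha _ _ x' y' h1.symm h2.symm ?_ (inv_pow hc k _ _ h)
    rw [h1, h2]
    intro h3
    apply hxy
    rw [← hx, ← hy]
    exact be_of_kap h3
  have hfield : ∀ (k : ℕ) (w w' : ZMod m ⊕ I) (a a' : K), (k : ZMod m) = 0 →
      be (Sum.inl (w', a') : VG m I L s K) = be (Sum.inl (w, a) : VG m I L s K) →
      kap (((cc g : Equiv.Perm (VG m I L s K)) ^ k) (Sum.inl (w, a))) =
        kap (Sum.inl (w', a') : VG m I L s K) := by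
    intro k w w' a a' hk hbe
    rw [kap_cc_inl, rot_pow_kap k w hk]
    have : w' = w := by
      rcases w with w | w <;> rcases w' with w' | w'
      · have := Sum.inl_injective hbe
        rw [this]
      · cases hbe
      · cases hbe
      · have := Sum.inl_injective (Sum.inr_injective hbe)
        rw [this]
    rw [this]
    rfl
  have hcyc : ∀ (k : ℕ) (l : L) (b b' : ZMod (s l)), (k : ZMod (s l)) = b' - b →
      kap (((cc g : Equiv.Perm (VG m I L s K)) ^ k) (Sum.inr ⟨l, b⟩)) =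
        kap (Sum.inr ⟨l, b'⟩ : VG m I L s K) := by
    intro k l b b' hk
    rw [kap_inr, hk, add_sub_cancel]
    rfl
  rcases x with ⟨w, a⟩ | ⟨l, a⟩ <;> rcases x' with ⟨w', a'⟩ | ⟨l', a'⟩
  · rcases y with ⟨v, b⟩ | ⟨l2, b⟩ <;> rcases y' with ⟨v', b'⟩ | ⟨l2', b'⟩
    · exact ⟨0, hfield 0 w w' a a' (by simp) hx, hfield 0 v v' b b' (by simp) hy⟩
    · rcases v with v | v <;> cases hy
    · rcases v' with v' | v' <;> cases hy
    · have hl : l2' = l2 := Sum.inr_injective (Sum.inr_injective hy)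
      subst hl
      obtain ⟨k, hk0, hk⟩ := hcrt 0 (Function.update (fun _ => 0) l2' (b' - b))
      refine ⟨k, hfield k w w' a a' hk0 hx, hcyc k l2' b b' ?_⟩
      rw [hk, Function.update_self]
  · rcases w with w | w <;> cases hx
  · rcases w' with w' | w' <;> cases hx
  · have hl : l' = l := Sum.inr_injective (Sum.inr_injective hx)
    subst hl
    rcases y with ⟨v, b⟩ | ⟨l2, b⟩ <;> rcases y' with ⟨v', b'⟩ | ⟨l2', b'⟩
    · obtain ⟨k, hk0, hk⟩ := hcrt 0 (Function.update (fun _ => 0) l' (a' - a))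
      refine ⟨k, hcyc k l' a a' ?_, hfield k v v' b b' hk0 hy⟩
      rw [hk, Function.update_self]
    · rcases v with v | v <;> cases hy
    · rcases v' with v' | v' <;> cases hy
    · have hl2 : l2' = l2 := Sum.inr_injective (Sum.inr_injective hy)
      subst hl2
      have hne : l' ≠ l2' := fun h => hxy (by subst h; rfl)
      obtain ⟨k, hk0, hk⟩ := hcrt 0
        (Function.update (Function.update (fun _ => 0) l2' (b' - b)) l' (a' - a))
      refine ⟨k, hcyc k l' a a' ?_, hcyc k l2' b b' ?_⟩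
      · rw [hk, Function.update_self]
      · rw [hk, Function.update_of_ne hne.symm, Function.update_self]

/-- the conjugate of the cyclic element preserves the invariant graphs -/
theorem inv_conj (hm : NeZero m) (hcrt : CRT m s) (g : Kˣ) (hgen : ∀ x : Kˣ, ∃ n : ℕ, x = g ^ n)
    (u : (ZMod m)ˣ) (w : ∀ l, (ZMod (s l))ˣ)
    (G : SimpleGraph (VG m I L s K)) (ha : ∀ t, Inv (ta t) G) (hc : Inv (cc g) G) :
    Inv ((hh u w : Equiv.Perm (VG m I L s K))⁻¹ * cc g * hh u w) G := by
  classical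
  intro x y hxy
  set d : Equiv.Perm (VG m I L s K) := (hh u w : Equiv.Perm (VG m I L s K))⁻¹ * cc g * hh u w
    with hd
  obtain ⟨k, hk0, hk⟩ := hcrt ((u⁻¹ : (ZMod m)ˣ) : ZMod m)
    (fun l => (((w l)⁻¹ : (ZMod (s l))ˣ) : ZMod (s l)))
  have hkap : ∀ v, kap (d v) = kap (((cc g : Equiv.Perm (VG m I L s K)) ^ k) v) := by
    intro v
    have hdv : ∀ v', (hh u w : Equiv.Perm (VG m I L s K)) v' =
        (cc g : Equiv.Perm (VG m I L s K)) ((hh u w : Equiv.Perm (VG m I L s K)) v) →
        d v = v' := by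
      intro v' h
      rw [hd, Equiv.Perm.mul_apply, Equiv.Perm.mul_apply, ← h, Equiv.Perm.inv_def,
        Equiv.symm_apply_apply]
    rcases v with ⟨v, a⟩ | ⟨l, a⟩
    · rcases v with j | i
      · rw [hdv (Sum.inl (Sum.inl (j + ((u⁻¹ : (ZMod m)ˣ) : ZMod m)),
          (gam g (mulS u I (Sum.inl j)) : K) * a))]
        · rw [kap_cc_inl, rot_pow_inl, hk0]
          rfl
        · rw [hh_inl, hh_inl, cc_inl]
          show Sum.inl (Sum.inl ((u : ZMod m) * (j + ((u⁻¹ : (ZMod m)ˣ) : ZMod m))), _) =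
            Sum.inl (Sum.inl ((u : ZMod m) * j + 1), _)
          rw [mul_add, Units.mul_inv]
      · rw [hdv (Sum.inl (Sum.inr i, (g : K) * a))]
        · rw [kap_cc_inl, rot_pow_inr]
          rfl
        · rfl
    · rw [hdv (Sum.inr ⟨l, a + (((w l)⁻¹ : (ZMod (s l))ˣ) : ZMod (s l))⟩)]
      · rw [kap_inr, hk]
        rfl
      · rw [hh_inr, hh_inr, cc_inr, mul_add, Units.mul_inv]
  have hadj := inv_pow hc k _ _ hxy
  by_cases hne : kap (d x) = kap (d y)
  · -- both vertices in one field block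
    have hdxy : d x ≠ d y := fun h => hxy.ne (d.injective h)
    have h1 : kap (((cc g : Equiv.Perm (VG m I L s K)) ^ k) x) = kap (d x) := (hkap x).symm
    have h2 : kap (((cc g : Equiv.Perm (VG m I L s K)) ^ k) y) = kap (d y) := (hkap y).symm
    rcases hdx : d x with ⟨w1, a⟩ | z
    · rcases hdy : d y with ⟨w2, b⟩ | z2
      · rw [hdx, hdy] at hne
        have hw : w1 = w2 := Sum.inl_injective hne
        subst hw
        rw [hdx] at h1
        rw [hdy] at h2
        rcases hcx : ((cc g : Equiv.Perm (VG m I L s K)) ^ k) x with ⟨w3, a'⟩ | z3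
        · rcases hcy : ((cc g : Equiv.Perm (VG m I L s K)) ^ k) y with ⟨w4, b'⟩ | z4
          · rw [hcx] at h1
            rw [hcy] at h2
            have e1 : w3 = w1 := Sum.inl_injective h1
            have e2 : w4 = w1 := Sum.inl_injective h2
            rw [hcx, hcy, e1, e2] at hadj
            refine clique_of_edge hm g hgen G ha hc w1 a' b' hadj a b ?_
            intro hab
            apply hdxy
            rw [hdx, hdy, hab]
          · rw [hcy] at h2
            cases h2
        · rw [hcx] at h1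
          cases h1
      · rw [hdx, hdy] at hne
        cases hne
    · rcases hdy : d y with ⟨w2, b⟩ | z2
      · rw [hdx, hdy] at hne
        cases hne
      · rw [hdx, hdy] at hne
        have : z = z2 := Sum.inr_injective hne
        exact absurd (by rw [hdx, hdy, this]) hdxy
  · exact fullk G ha _ _ _ _ (hkap x) (hkap y) (by rw [← hkap, ← hkap]; exact hne) hadj

variable {𝓕 : Pool.Agent.TH410.KV.Fam}

theorem has_of_complete {V : Type} {G : SimpleGraph V} (F' : 𝓕) (φ : Fin F'.1.1 ↪ V)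
    (h : ∀ i j, i ≠ j → G.Adj (φ i) (φ j)) : Has 𝓕 G :=
  ⟨F'.1, F'.2, ⟨⟨⟨φ, fun {i j} hij => h i j hij.ne⟩, φ.injective⟩⟩⟩

/-- no edges inside the blocks -/
theorem no_inner (hm : NeZero m) [∀ l, NeZero (s l)] (g : Kˣ)
    (hgen : ∀ x : Kˣ, ∃ n : ℕ, x = g ^ n)
    (u : (ZMod m)ˣ) (w : ∀ l, (ZMod (s l))ˣ)
    (hw : ∀ l, ∀ d d' : ZMod (s l), d ≠ 0 → d' ≠ 0 →
      ∃ k : ℕ, d' = (w l : ZMod (s l)) ^ k * d ∨ d' = -((w l : ZMod (s l)) ^ k * d))
    (F' : 𝓕) (hK : Nonempty (Fin F'.1.1 ↪ K)) (hs : ∀ l, F'.1.1 ≤ s l)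
    (G : SimpleGraph (VG m I L s K)) (hG : ¬ Has 𝓕 G) (ha : ∀ t, Inv (ta t) G)
    (hc : Inv (cc g) G) (hh' : Inv (hh u w) G)
    (x y : VG m I L s K) (hxy : be x = be y) : ¬ G.Adj x y := by
  intro hadj
  apply hG
  rcases x with ⟨v, a⟩ | ⟨l, a⟩
  · rcases y with ⟨v', b⟩ | ⟨l', b⟩
    · have hv : v' = v := by
        rcases v with w | w <;> rcases v' with w' | w'
        · have := Sum.inl_injective hxy
          rw [this]
        · cases hxy
        · cases hxy
        · have := Sum.inl_injective (Sum.inr_injective hxy)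
          rw [this]
      subst hv
      obtain ⟨φ⟩ := hK
      refine has_of_complete F' ⟨fun i => Sum.inl (v', φ i), fun i j hij => ?_⟩ fun i j hij => ?_
      · exact φ.injective (Prod.ext_iff.1 (Sum.inl_injective hij)).2
      · exact clique_of_edge hm g hgen G ha hc v' a b hadj _ _ (fun h => hij (φ.injective h))
    · rcases v with v | v <;> cases hxy
  · rcases y with ⟨v', b⟩ | ⟨l', b⟩
    · rcases v' with v' | v' <;> cases hxy
    · have hl : l = l' := Sum.inr_injective (Sum.inr_injective hxy)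
      subst hl
      -- the circulant graph
      let ψ : ZMod (s l) ⊕ Empty → VG m I L s K := fun z => z.elim (fun y => Sum.inr ⟨l, y⟩)
        (fun e => e.elim)
      have hcpl : ∀ i j : ZMod (s l), i ≠ j →
          (G.comap ψ).Adj (Sum.inl i) (Sum.inl j) := by
        intro i j hij
        refine compl_of (J := Empty) inferInstance (w l) (hw l) (G.comap ψ) ?_ ?_ a b ?_ i j hij
        · rintro (y | e) (y' | e') h
          · exact hc _ _ h
          · exact e'.elim
          · exact e.elim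
          · exact e.elim
        · rintro (y | e) (y' | e') h
          · exact hh' _ _ h
          · exact e'.elim
          · exact e.elim
          · exact e.elim
        · exact hadj
      have hcast : ∀ i j : Fin F'.1.1, ((i : ℕ) : ZMod (s l)) = ((j : ℕ) : ZMod (s l)) → i = j := by
        intro i j hij
        have h1 := congrArg ZMod.val hij
        rw [ZMod.val_natCast, ZMod.val_natCast, Nat.mod_eq_of_lt (lt_of_lt_of_le i.2 (hs l)),
          Nat.mod_eq_of_lt (lt_of_lt_of_le j.2 (hs l))] at h1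
        exact Fin.ext h1
      refine has_of_complete F' ⟨fun i => Sum.inr ⟨l, ((i : ℕ) : ZMod (s l))⟩,
        fun i j hij => ?_⟩ fun i j hij => ?_
      · have h1 := Sum.inr_injective hij
        rw [Sigma.mk.injEq] at h1
        exact hcast i j (eq_of_heq h1.2)
      · exact hcpl _ _ (fun h => hij (hcast i j h))

/-- the invariant graphs without a member are block graphs -/
theorem structure_of (hm : NeZero m) [∀ l, NeZero (s l)] (hcrt : CRT m s) (g : Kˣ)
    (hgen : ∀ x : Kˣ, ∃ n : ℕ, x = g ^ n)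
    (u : (ZMod m)ˣ) (w : ∀ l, (ZMod (s l))ˣ)
    (hw : ∀ l, ∀ d d' : ZMod (s l), d ≠ 0 → d' ≠ 0 →
      ∃ k : ℕ, d' = (w l : ZMod (s l)) ^ k * d ∨ d' = -((w l : ZMod (s l)) ^ k * d))
    (F' : 𝓕) (hK : Nonempty (Fin F'.1.1 ↪ K)) (hs : ∀ l, F'.1.1 ≤ s l)
    (G : SimpleGraph (VG m I L s K)) (hG : ¬ Has 𝓕 G) (ha : ∀ t, Inv (ta t) G)
    (hc : Inv (cc g) G) (hh' : Inv (hh u w) G) :
    ∃ Γ : SimpleGraph (ZMod m ⊕ (I ⊕ L)), Γ.comap be = G := by
  refine ⟨{ Adj := fun B B' => B ≠ B' ∧ ∃ x y, be x = B ∧ be y = B' ∧ G.Adj x y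
            symm := ⟨fun B B' h => ⟨h.1.symm, ?_⟩⟩
            loopless := ⟨fun B h => h.1 rfl⟩ }, ?_⟩
  · obtain ⟨_, x, y, h1, h2, h3⟩ := h
    exact ⟨y, x, h2, h1, h3.symm⟩
  · ext x y
    rw [SimpleGraph.comap_adj]
    constructor
    · rintro ⟨hne, x', y', h1, h2, h3⟩
      exact unif hcrt g G ha hc x' y' x y h1.symm h2.symm (by rw [h1, h2]; exact hne) h3
    · intro h
      exact ⟨fun h1 => no_inner hm g hgen u w hw F' hK hs G hG ha hc hh' x y h1 h, x, y, rfl, rfl, h⟩

end Str

end Pool.Agent.H23.EV
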