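import Mathlib
import Pool.Agent.H23.EV.Str

set_option autoImplicit false
set_option linter.unusedSectionVars false

/-!
The identity for `Fin n`.
-/

namespace Pool.Agent.H23.EV

open Finset Pool.Agent.H98R2.Ev Pool.Agent.TH410.KV
open Pool.Agent.H98R2.Nb (Inv Has)
open Pool.Agent.W5h82.Ev (StableAt has_mono has_of_hom bad_xi)

variable {𝓕 : Pool.Agent.TH410.KV.Fam}

theorem NE_dec {E : Type} (i j : DecidableEq E) (U : Finset E) (P : Finset E → Prop)
    (h : @NE E i U P) : @NE E j U P := by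
  have e : i = j := Subsingleton.elim i j
  subst e
  exact h

theorem fin_identity {p q : ℕ} [Fact p.Prime] [Fact q.Prime]
    (h0 : ∀ F : 𝓕, ¬ F.1.2.Colorable 1) {b : ℕ} (hst : StableAt 𝓕 b)
    (c : ℕ) (hc : 1 ≤ c) (hbc : b ≤ p ^ c) (F₁ : 𝓕) (hF₁ : F₁.1.1 ≤ p ^ c)
    {m : ℕ} (hm : 2 ≤ m) (u : (ZMod m)ˣ)
    (hu : ∀ d d' : ZMod m, d ≠ 0 → d' ≠ 0 → ∃ k : ℕ, d' = (u : ZMod m) ^ k * d ∨
      d' = -((u : ZMod m) ^ k * d))
    {L : Type} [Fintype L] [DecidableEq L] (s : L → ℕ) (hsz : ∀ l, NeZero (s l))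
    (w : ∀ l, (ZMod (s l))ˣ)
    (hw : ∀ l, ∀ d d' : ZMod (s l), d ≠ 0 → d' ≠ 0 →
      ∃ k : ℕ, d' = (w l : ZMod (s l)) ^ k * d ∨ d' = -((w l : ZMod (s l)) ^ k * d))
    (hsF : ∀ l, F₁.1.1 ≤ s l) (hsb : ∀ l, b ≤ s l) (hcrt : CRT m s)
    (t : ℕ) (hut : u ^ q ^ t = 1) (hwt : ∀ l, w l ^ q ^ t = 1)
    (M n : ℕ) (hn : n = p ^ c * (m + M) + ∑ l, s l)
    (hne : NE (univ : Finset (EV (Fin n))) (fun S => ¬ Has 𝓕 (toG S))) :
    Lb 𝓕 q (cl q (xi : TY 𝓕) ^ (M + Fintype.card L + 1)) =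
      Lb 𝓕 q (cl q (J m (xi : TY 𝓕)) * cl q (xi : TY 𝓕) ^ (M + Fintype.card L)) := by
  classical
  have hp : p.Prime := Fact.out
  have hmz : NeZero m := ⟨by omega⟩
  let K : Type := GaloisField p c
  have hfK : Fintype K := Fintype.ofFinite _
  have hdK : DecidableEq K := Classical.decEq _
  have hKc : Fintype.card K = p ^ c := by
    rw [← Nat.card_eq_fintype_card]
    exact GaloisField.card p c (by omega)
  have hcard : Fintype.card (Fin n) = Fintype.card (VG m (Fin M) L s K) := by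
    rw [Fintype.card_fin, Fintype.card_sum, Fintype.card_prod, Fintype.card_sum, ZMod.card,
      Fintype.card_fin, hKc, Fintype.card_sigma, hn, mul_comm]
    congr 1
    refine Finset.sum_congr rfl fun l _ => ?_
    rw [ZMod.card]
  let E : Fin n ≃ VG m (Fin M) L s K := Fintype.equivOfCardEq hcard
  have hNE2 := ne_map15 (ev15 E) _ _ hne
  rw [Finset.map_univ_equiv] at hNE2
  have hNE3 : NE (univ : Finset (EV (VG m (Fin M) L s K)))
      (fun S => ¬ Has 𝓕 (toG S)) := by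
    have h1 : (fun S : Finset (EV (VG m (Fin M) L s K)) => ¬ Has 𝓕 (toG S)) =
        (fun S => ¬ Has 𝓕 (toG (S.map (ev15 E).symm.toEmbedding))) := by
      funext S
      have h1 : toG (S.map (ev15 E).symm.toEmbedding) = (toG S).map E.symm.toEmbedding :=
        toG_map15 E.symm S
      rw [h1]
      apply propext
      rw [not_iff_not]
      exact ⟨fun h => has_mono h ⟨(SimpleGraph.Iso.map E.symm (toG S)).toCopy⟩,
        fun h => has_mono h ⟨(SimpleGraph.Iso.map E.symm (toG S)).symm.toCopy⟩⟩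
    rw [h1]
    exact hNE2
  obtain ⟨g, hg⟩ := IsCyclic.exists_generator (α := Kˣ)
  have hgen : ∀ x : Kˣ, ∃ v : ℕ, x = g ^ v := by
    intro x
    obtain ⟨v, hv⟩ := (mem_powers_iff_mem_zpowers).2 (hg x)
    exact ⟨v, hv.symm⟩
  have hembK : ∀ r : ℕ, r ≤ p ^ c → Nonempty (Fin r ↪ K) := by
    intro r hr
    apply Function.Embedding.nonempty_of_card_le
    rw [Fintype.card_fin, hKc]
    exact hr
  -- the blocks contain `b` vertices
  obtain ⟨φ⟩ := hembK b hbc
  have hf : ∃ f : (ZMod m ⊕ (Fin M ⊕ L)) × Fin b → VG m (Fin M) L s K,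
      Function.Injective f ∧ ∀ z, be (f z) = z.1 := by
    have hcast : ∀ (l : L) (i j : Fin b), ((i : ℕ) : ZMod (s l)) = ((j : ℕ) : ZMod (s l)) →
        i = j := by
      intro l i j hij
      have h1 := congrArg ZMod.val hij
      rw [ZMod.val_natCast, ZMod.val_natCast, Nat.mod_eq_of_lt (lt_of_lt_of_le i.2 (hsb l)),
        Nat.mod_eq_of_lt (lt_of_lt_of_le j.2 (hsb l))] at h1
      exact Fin.ext h1
    refine ⟨fun z => match z.1 with
      | Sum.inl j => Sum.inl (Sum.inl j, φ z.2)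
      | Sum.inr (Sum.inl i) => Sum.inl (Sum.inr i, φ z.2)
      | Sum.inr (Sum.inr l) => Sum.inr ⟨l, ((z.2 : ℕ) : ZMod (s l))⟩, ?_, ?_⟩
    · rintro ⟨j | i | l, x⟩ ⟨j' | i' | l', x'⟩ h
      · simp only [Sum.inl.injEq, Prod.mk.injEq] at h
        obtain ⟨h1, h2⟩ := h
        rw [h1, φ.injective h2]
      · simp at h
      · simp at h
      · simp at h
      · simp only [Sum.inl.injEq, Prod.mk.injEq, Sum.inr.injEq] at h
        obtain ⟨h1, h2⟩ := h
        rw [h1, φ.injective h2]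
      · simp at h
      · simp at h
      · simp at h
      · simp only [Sum.inr.injEq, Sigma.mk.injEq] at h
        obtain ⟨h1, h2⟩ := h
        subst h1
        rw [hcast l x x' (eq_of_heq h2)]
    · rintro ⟨j | i | l, x⟩ <;> rfl
  obtain ⟨f, hfi, hfb⟩ := hf
  have key := rot_identity (𝓕 := 𝓕) (m := m) (Y := Fin M ⊕ L) h0 hst hm u hu
    (V := VG m (Fin M) L s K) be be_surj f hfi hfb p q t
    (fun τ : (ZMod m ⊕ Fin M → K) => ta τ) (cc g) (hh u w)
    (fun i j => ta_comm i j) (fun i => ta_pow p i) (hh_pow u w (q ^ t) hut hwt)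
    (by
      intro G hG i
      rw [hh_ta]
      exact hG _)
    (by
      intro G hG i
      rw [cc_ta]
      exact hG _)
    (fun G hG1 hG2 => inv_conj hmz hcrt g hgen u w G hG1 hG2)
    (fun i x => be_ta i x) (fun x => be_cc g x) (fun x => be_hh u w x)
    (fun G hG h1 h2 h3 => structure_of hmz hcrt g hgen u w hw F₁ (hembK _ hF₁) hsF G hG h1 h2 h3)
    (NE_dec _ _ _ _ hNE3)
  rw [Fintype.card_sum, Fintype.card_fin] at key
  exact key

end Pool.Agent.H23.EV
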