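import Mathlib
import Pool.Agent.H23.EV.FinN

set_option autoImplicit false
set_option linter.unusedSectionVars false

/-!
The values of the functional.
-/

namespace Pool.Agent.H23.EV

open Finset Pool.Agent.H98R2.Ev Pool.Agent.TH410.KV
open Pool.Agent.H98R2.Nb (Inv Has)
open Pool.Agent.W5h82.Ev (StableAt has_mono has_of_hom bad_xi Lb_xi_pow)

variable {𝓕 : Pool.Agent.TH410.KV.Fam}

/-- with a complete `m`-partite block, bad means that this block has a neighbour -/
theorem bad_flag {m : ℕ} (hm : 2 ≤ m) (F₀ : 𝓕) (hF₀ : F₀.1.2.Colorable (m + 1))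
    (hno : ∀ F : 𝓕, ¬ F.1.2.Colorable m) {Y : Type} [Fintype Y] [DecidableEq Y]
    (hY : Fintype.card Y ≤ m) (S : Finset (EV (Option Y))) :
    Bad (oty (J m (xi : TY 𝓕)) (fun _ : Y => xi)) (toG S) ↔ ∃ y, (toG S).Adj none (some y) := by
  have hmz : NeZero m := ⟨by omega⟩
  rw [← bad_Ga1 hmz S, bad_xi]
  have hadj : ∀ x y : ZMod m ⊕ Y, (Ga (m := m) (S.disjSum univ)).Adj x y ↔
      (toG S).Adj (col m x) (col m y) ∨ (x ≠ y ∧ col m x = none ∧ col m y = none) := by
    intro x y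
    rw [Ga_adj, Finset.toLeft_disjSum, Finset.toRight_disjSum]
    simp
  constructor
  · rintro ⟨F, hF, ⟨κ⟩⟩
    by_contra hcon
    push Not at hcon
    apply hno ⟨F, hF⟩
    -- a colouring of the target with `m` colours
    obtain ⟨ψ⟩ : Nonempty (Y ↪ ZMod m) := by
      apply Function.Embedding.nonempty_of_card_le
      rwa [ZMod.card]
    have e : ZMod m ≃ Fin m := Fintype.equivFinOfCardEq (ZMod.card m)
    refine ⟨SimpleGraph.Coloring.mk (fun v => e ((κ v).elim id ψ)) ?_⟩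
    intro v v' hvv heq
    have h1 : (κ v).elim id ψ = (κ v').elim id ψ := e.injective heq
    have h2 := κ.map_adj hvv
    rw [hadj] at h2
    rcases hv : κ v with x | x <;> rcases hv' : κ v' with y | y <;>
      simp only [hv, hv', Sum.elim_inl, Sum.elim_inr, id, col] at h1 h2
    · rcases h2 with h2 | ⟨h2, _⟩
      · exact (toG S).loopless.irrefl _ h2
      · exact h2 (by rw [h1])
    · rcases h2 with h2 | ⟨_, _, h2⟩
      · exact hcon y h2
      · cases h2
    · rcases h2 with h2 | ⟨_, h2, _⟩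
      · exact hcon x h2.symm
      · cases h2
    · rcases h2 with h2 | ⟨_, h2, _⟩
      · exact h2.ne (by rw [ψ.injective h1])
      · cases h2
  · rintro ⟨y, hy⟩
    obtain ⟨C⟩ := hF₀
    refine ⟨F₀.1, F₀.2, ⟨⟨fun v => if C v = Fin.last m then Sum.inr y
      else Sum.inl (((C v : Fin (m + 1)) : ℕ) : ZMod m), fun {v v'} hvv => ?_⟩⟩⟩
    have hne : C v ≠ C v' := C.valid hvv
    rw [hadj]
    by_cases h1 : C v = Fin.last m
    · have h2 : C v' ≠ Fin.last m := fun h => hne (h1.trans h.symm)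
      rw [if_pos h1, if_neg h2]
      exact Or.inl hy.symm
    · by_cases h2 : C v' = Fin.last m
      · rw [if_neg h1, if_pos h2]
        exact Or.inl hy
      · rw [if_neg h1, if_neg h2]
        refine Or.inr ⟨fun h => hne ?_, rfl, rfl⟩
        have h3 := congrArg ZMod.val (Sum.inl_injective h)
        have h4 : ((C v : Fin (m + 1)) : ℕ) < m := by
          have h5 := (C v).2
          have h6 : ((C v : Fin (m + 1)) : ℕ) ≠ m := fun h => h1 (Fin.ext (by simpa using h))
          omega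
        have h4' : ((C v' : Fin (m + 1)) : ℕ) < m := by
          have h5 := (C v').2
          have h6 : ((C v' : Fin (m + 1)) : ℕ) ≠ m := fun h => h2 (Fin.ext (by simpa using h))
          omega
        rw [ZMod.val_natCast, ZMod.val_natCast, Nat.mod_eq_of_lt h4, Nat.mod_eq_of_lt h4'] at h3
        exact Fin.ext h3

theorem NN_flag (q : ℕ) {m : ℕ} (hm : 2 ≤ m) (F₀ : 𝓕) (hF₀ : F₀.1.2.Colorable (m + 1))
    (hno : ∀ F : 𝓕, ¬ F.1.2.Colorable m) {Y : Type} [Fintype Y] [DecidableEq Y]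
    (hY : Fintype.card Y ≤ m) (y₁ y₂ : Y) (hy : y₁ ≠ y₂) :
    NN q (oty (J m (xi : TY 𝓕)) (fun _ : Y => xi)) = 0 := by
  classical
  have he : ¬ (s(some y₁, some y₂) : Sym2 (Option Y)).IsDiag := by
    rw [Sym2.mk_isDiag_iff]
    intro h
    exact hy (Option.some_injective _ h)
  let e₀ : EV (Option Y) := ⟨s(some y₁, some y₂), he⟩
  unfold NN
  have hbad : ∀ S : Finset (EV (Option Y)),
      (∃ y, (toG (symmDiff S {e₀})).Adj none (some y)) ↔ ∃ y, (toG S).Adj none (some y) := by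
    intro S
    refine exists_congr fun y => ?_
    rw [toG_adj, toG_adj]
    refine exists_congr fun h => ?_
    rw [Finset.mem_symmDiff, Finset.mem_singleton]
    have hne : (⟨s(none, some y), h⟩ : EV (Option Y)) ≠ e₀ := by
      intro h1
      have h2 := congrArg Subtype.val h1
      simp only [e₀, Sym2.eq_iff] at h2
      rcases h2 with ⟨h2, _⟩ | ⟨h2, _⟩ <;> cases h2
    tauto
  have hind : ∀ S : Finset (EV (Option Y)),
      ind q (oty (J m (xi : TY 𝓕)) (fun _ : Y => xi)) (toG (symmDiff S {e₀})) =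
        ind q (oty (J m (xi : TY 𝓕)) (fun _ : Y => xi)) (toG S) := by
    intro S
    apply ind_congr
    rw [bad_flag hm F₀ hF₀ hno hY, bad_flag hm F₀ hF₀ hno hY]
    exact hbad S
  have hcard : ∀ S : Finset (EV (Option Y)), (-1 : ZMod q) ^ (symmDiff S {e₀}).card =
      -(-1) ^ S.card := by
    intro S
    by_cases h : e₀ ∈ S
    · have h1 : symmDiff S {e₀} = S.erase e₀ := by
        ext x
        rw [Finset.mem_symmDiff, Finset.mem_singleton, Finset.mem_erase]
        constructor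
        · rintro (⟨h1, h2⟩ | ⟨h1, h2⟩)
          · exact ⟨h2, h1⟩
          · subst h1
            exact absurd h h2
        · rintro ⟨h1, h2⟩
          exact Or.inl ⟨h2, h1⟩
      rw [h1, ← Finset.card_erase_add_one h, pow_succ]
      ring
    · have h1 : symmDiff S {e₀} = insert e₀ S := by
        ext x
        rw [Finset.mem_symmDiff, Finset.mem_singleton, Finset.mem_insert]
        constructor
        · rintro (⟨h1, h2⟩ | ⟨h1, h2⟩)
          · exact Or.inr h1
          · exact Or.inl h1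
        · rintro (h1 | h1)
          · subst h1
            exact Or.inr ⟨rfl, h⟩
          · exact Or.inl ⟨h1, fun h2 => h (h2 ▸ h1)⟩
      rw [h1, Finset.card_insert_of_notMem h, pow_succ]
      ring
  refine Finset.sum_involution (fun S _ => symmDiff S {e₀}) ?_ ?_ ?_ ?_
  · intro S _
    rw [hind, hcard]
    ring
  · intro S _ _ h
    have h1 := symmDiff_eq_left.1 h
    exact Finset.singleton_ne_empty _ h1
  · intro S _
    exact mem_univ _
  · intro S _
    exact symmDiff_symmDiff_cancel_right _ _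

/-- the flagged value vanishes -/
theorem Lb_flag (q : ℕ) [Fact q.Prime] {m : ℕ} (hm : 2 ≤ m) (F₀ : 𝓕)
    (hF₀ : F₀.1.2.Colorable (m + 1)) (hno : ∀ F : 𝓕, ¬ F.1.2.Colorable m) (r : ℕ) (hr : 2 ≤ r)
    (hrm : r ≤ m) : Lb 𝓕 q (cl q (J m (xi : TY 𝓕)) * cl q (xi : TY 𝓕) ^ r) = 0 := by
  have h1 := Lb_oty (𝓕 := 𝓕) (Y := Fin r) q (J m xi)
  rw [Fintype.card_fin] at h1
  rw [← h1]
  exact NN_flag q hm F₀ hF₀ hno (by rwa [Fintype.card_fin]) (⟨0, by omega⟩ : Fin r) ⟨1, by omega⟩
    (by simp)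

/-- reduction of the exponent -/
theorem pow_red {A : Type} [CommRing A] {x : A} {T : ℕ} (h : x ^ (T + 1) = x) (r i : ℕ)
    (hr : 1 ≤ r) : x ^ (r + i * T) = x ^ r := by
  induction i with
  | zero => simp
  | succ i ih =>
    have e : r + (i + 1) * T = (r - 1 + i * T) + (T + 1) := by
      rw [add_mul, one_mul]
      omega
    rw [e, pow_add, h, ← pow_succ, ← ih]
    congr 1
    omega

theorem cl_three (q : ℕ) [Fact q.Prime] (hq : q = 2 ∨ q = 3) (F₀ : 𝓕)
    (hF₀ : F₀.1.2.Colorable q) : cl q (xi : TY 𝓕) ^ q = cl q (xi : TY 𝓕) := by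
  have hqz : NeZero q := ⟨(Fact.out : q.Prime).ne_zero⟩
  rw [cl_pow q hq, cl_zero q (J q xi) F₀, sub_zero]
  have h1 := (xi_iter (𝓕 := 𝓕) q 1 F₀).2 (by rwa [pow_one])
  exact h1

theorem cl_four (F₀ : 𝓕) (hF₀ : F₀.1.2.Colorable 4) (h0 : ∀ F : 𝓕, ¬ F.1.2.Colorable 1)
    [Fact (Nat.Prime 2)] :
    cl 2 (xi : TY 𝓕) ^ 4 = cl 2 (xi : TY 𝓕) := by
  have hX : ∀ H : 𝓕, univ ∉ (xi : TY 𝓕).1 H := by
    intro H hH
    have h2 : univ ∈ ((J 2)^[0] (xi : TY 𝓕)).1 H := hH
    rw [xi_iter, pow_zero] at h2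
    exact h0 H h2
  have hnt : Nontrivial (AA 𝓕 2) := nontrivial_AA 2 _ hX
  have hch : CharP (AA 𝓕 2) 2 := charP_AA 2
  have hDe : (De 2 ^ 2) (cl 2 (xi : TY 𝓕)) = 0 := by
    rw [De_cl 2 (Or.inl rfl)]
    exact cl_zero 2 _ F₀ ((xi_iter 2 2 F₀).2 hF₀)
  have hper := pow_period (e := 1) 2 hDe (by norm_num)
  simpa using hper

end Pool.Agent.H23.EV
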