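import Mathlib
import Pool.Agent.H23.EV.Eval
import Pool.Agent.H23.L.W.Main

set_option autoImplicit false
set_option linter.unusedSectionVars false

/-!
Containing a member of a family with a 3-colourable or 4-colourable member.
-/

namespace Pool.Agent.H23.EV

open Finset Pool.Agent.H98R2.Ev Pool.Agent.TH410.KV
open Pool.Agent.H98R2.Nb (Inv Has)
open Pool.Agent.W5h82.Ev (StableAt has_mono has_of_hom bad_xi Lb_xi_pow Evas h0_of evas_of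
  evas_three exists_primePow_dvd)

variable {𝓕 : Pool.Agent.TH410.KV.Fam}

theorem crt_empty (m : ℕ) (hm : NeZero m) : CRT m (fun e : Empty => e.elim) := by
  intro e0 e
  exact ⟨e0.val, ZMod.natCast_zmod_val e0, fun l => l.elim⟩

/-- evasiveness from a rotation of `m` field blocks -/
theorem evas_rot {n p : ℕ} (q : ℕ) [Fact q.Prime] (hp : p.Prime)
    (h0 : ∀ F ∈ 𝓕, F.2 ≠ ⊥) {b : ℕ} (hst : StableAt 𝓕 b) {c : ℕ} (hc : 1 ≤ c)
    (hbc : b ≤ p ^ c) (hF : ∃ F ∈ 𝓕, F.1 ≤ p ^ c) {m : ℕ} (hm : 2 ≤ m) (u : (ZMod m)ˣ)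
    (hu : ∀ d d' : ZMod m, d ≠ 0 → d' ≠ 0 → ∃ k : ℕ, d' = (u : ZMod m) ^ k * d ∨
      d' = -((u : ZMod m) ^ k * d)) (t : ℕ) (hut : u ^ q ^ t = 1)
    {M : ℕ} (hn : n = p ^ c * (m + M)) (hn2 : 2 ≤ n)
    (hneq : Lb 𝓕 q (cl q (xi : TY 𝓕) ^ (M + 1)) ≠
      Lb 𝓕 q (cl q (J m (xi : TY 𝓕)) * cl q (xi : TY 𝓕) ^ M)) :
    Evas (fun G : SimpleGraph (Fin n) => Has 𝓕 G) := by
  intro σ hσ
  by_contra hbad
  have hNE := ne_of_strategy n hn2 (fun G => Has 𝓕 G) σ hσ hbad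
  obtain ⟨F', hF', hF'c⟩ := hF
  have : Fact p.Prime := ⟨hp⟩
  have key := fin_identity (p := p) (q := q) (h0_of h0) hst c hc hbc ⟨F', hF'⟩ hF'c hm u hu
    (L := Empty) (fun e => e.elim) (fun e => e.elim) (fun e => e.elim) (fun e => e.elim)
    (fun e => e.elim) (fun e => e.elim) (crt_empty m ⟨by omega⟩) t hut (fun e => e.elim) M n
    (by simpa using hn) hNE
  simp only [Fintype.card_empty, add_zero] at key
  exact hneq key

theorem fact2 : Fact (Nat.Prime 2) := ⟨Nat.prime_two⟩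
theorem fact3 : Fact (Nat.Prime 3) := ⟨Nat.prime_three⟩

theorem hu2 (d d' : ZMod 2) (hd : d ≠ 0) (hd' : d' ≠ 0) :
    ∃ k : ℕ, d' = ((1 : (ZMod 2)ˣ) : ZMod 2) ^ k * d ∨
      d' = -(((1 : (ZMod 2)ˣ) : ZMod 2) ^ k * d) := by
  refine ⟨0, ?_⟩
  rw [pow_zero, one_mul]
  revert d d'
  decide

theorem hu3 (d d' : ZMod 3) (hd : d ≠ 0) (hd' : d' ≠ 0) :
    ∃ k : ℕ, d' = ((1 : (ZMod 3)ˣ) : ZMod 3) ^ k * d ∨
      d' = -(((1 : (ZMod 3)ˣ) : ZMod 3) ^ k * d) := by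
  refine ⟨0, ?_⟩
  rw [pow_zero, one_mul]
  revert d d'
  decide

/-- the unit 2 modulo 5 -/
def u5 : (ZMod 5)ˣ := ⟨2, 3, by decide, by decide⟩

theorem hu5 (d d' : ZMod 5) (hd : d ≠ 0) (hd' : d' ≠ 0) :
    ∃ k : ℕ, d' = ((u5 : (ZMod 5)ˣ) : ZMod 5) ^ k * d ∨
      d' = -(((u5 : (ZMod 5)ˣ) : ZMod 5) ^ k * d) := by
  have h : ∃ k : Fin 4, d' = (2 : ZMod 5) ^ (k : ℕ) * d := by
    revert d d'
    decide
  obtain ⟨k, hk⟩ := h
  exact ⟨k, Or.inl hk⟩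

theorem u5_pow : u5 ^ 2 ^ 2 = 1 := by
  apply Units.ext
  decide

/-- a 3-colourable member: all numbers of blocks except two -/
theorem evas_three_all (h0 : ∀ F ∈ 𝓕, F.2 ≠ ⊥) {b : ℕ} (hst : StableAt 𝓕 b)
    (hcol : ∃ F ∈ 𝓕, F.2.Colorable 3) {n p c t : ℕ} (hp : p.Prime) (hc : 1 ≤ c)
    (hbc : b ≤ p ^ c) (hF : ∃ F ∈ 𝓕, F.1 ≤ p ^ c) (hn : n = p ^ c * t) (hn2 : 2 ≤ n)
    (ht : t ≠ 2) :
    Evas (fun G : SimpleGraph (Fin n) => Has 𝓕 G) := by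
  by_cases ht6 : t % 6 ≠ 2
  · exact evas_three h0 hst hcol hp hc hbc hF hn hn2 ht6
  push Not at ht6
  obtain ⟨F, hF1, hF2⟩ := hcol
  by_cases hbip : ∃ F ∈ 𝓕, F.2.Colorable 2
  · -- a bipartite member
    obtain ⟨F', hF', hF2'⟩ := hbip
    have : Fact (Nat.Prime 2) := fact2
    refine evas_of (p := p) 2 hp h0 hst
      ⟨c, t, 0, 0, hc, hbc, hF, Nat.zero_le _, Or.inl rfl, ?_, ?_⟩ hn2
    · rw [add_zero, Lb_xi_pow 2 (Or.inl rfl) (h0_of h0) ⟨F', hF'⟩ 1 0 (by rwa [pow_one])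
        (by norm_num) t (by omega) (by norm_num [Nat.modEq_one])]
      exact one_ne_zero
    · rw [mul_zero, add_zero, add_zero, hn]
  · push Not at hbip
    have hbip' : ∀ F : 𝓕, ¬ F.1.2.Colorable 2 := fun F => hbip F.1 F.2
    have : Fact (Nat.Prime 3) := fact3
    have hx3 : cl 3 (xi : TY 𝓕) ^ (2 + 1) = cl 3 (xi : TY 𝓕) :=
      cl_three 3 (Or.inr rfl) ⟨F, hF1⟩ hF2
    refine evas_rot (p := p) 3 hp h0 hst hc hbc hF (m := 2) le_rfl 1 hu2 0 (one_pow _)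
      (M := t - 2) (by rw [hn]; congr 1; omega) hn2 ?_
    have e1 : Lb 𝓕 3 (cl 3 (xi : TY 𝓕) ^ (t - 2 + 1)) = 1 :=
      Lb_xi_pow 3 (Or.inr rfl) (h0_of h0) ⟨F, hF1⟩ 1 0 (by rwa [pow_one])
        (by norm_num) (t - 2 + 1) (by omega) (by
          have h1 : 3 ^ 3 ^ 0 - 1 = 2 := by norm_num
          rw [h1, Nat.ModEq]
          omega)
    have e2 : Lb 𝓕 3 (cl 3 (J 2 (xi : TY 𝓕)) * cl 3 (xi : TY 𝓕) ^ (t - 2)) = 0 := by
      have h1 : t - 2 = 2 + (t / 2 - 2) * 2 := by omega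
      rw [h1, pow_red hx3 2 _ (by norm_num)]
      exact Lb_flag 3 le_rfl ⟨F, hF1⟩ hF2 hbip' 2 le_rfl le_rfl
    rw [e1, e2]
    exact one_ne_zero

/-- a 4-colourable member: all numbers of blocks except two and three -/
theorem evas_four_all (h0 : ∀ F ∈ 𝓕, F.2 ≠ ⊥) {b : ℕ} (hst : StableAt 𝓕 b)
    (hcol : ∃ F ∈ 𝓕, F.2.Colorable 4) {n p c t : ℕ} (hp : p.Prime) (hc : 1 ≤ c)
    (hbc : b ≤ p ^ c) (hF : ∃ F ∈ 𝓕, F.1 ≤ p ^ c) (hn : n = p ^ c * t) (hn2 : 2 ≤ n)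
    (ht2 : t ≠ 2) (ht3 : t ≠ 3) :
    Evas (fun G : SimpleGraph (Fin n) => Has 𝓕 G) := by
  by_cases h3 : ∃ F ∈ 𝓕, F.2.Colorable 3
  · exact evas_three_all h0 hst h3 hp hc hbc hF hn hn2 ht2
  push Not at h3
  have h3' : ∀ F : 𝓕, ¬ F.1.2.Colorable 3 := fun F => h3 F.1 F.2
  obtain ⟨F, hF1, hF2⟩ := hcol
  have : Fact (Nat.Prime 2) := fact2
  have ht0 : t ≠ 0 := by
    rintro rfl
    rw [mul_zero] at hn
    omega
  have hone : ∀ r : ℕ, r % 3 = 1 → Lb 𝓕 2 (cl 2 (xi : TY 𝓕) ^ r) = 1 := by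
    intro r hr
    refine Lb_xi_pow 2 (Or.inl rfl) (h0_of h0) ⟨F, hF1⟩ 2 1 (by simpa using hF2)
      (by norm_num) r (by omega) ?_
    have h1 : 2 ^ 2 ^ 1 - 1 = 3 := by norm_num
    rw [h1, Nat.ModEq]
    omega
  have hx4 : cl 2 (xi : TY 𝓕) ^ (3 + 1) = cl 2 (xi : TY 𝓕) := cl_four ⟨F, hF1⟩ hF2 (h0_of h0)
  have hcases : t % 3 = 1 ∨ t % 3 = 0 ∨ t % 3 = 2 := by omega
  rcases hcases with h | h | h
  · refine evas_of (p := p) 2 hp h0 hst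
      ⟨c, t, 0, 0, hc, hbc, hF, Nat.zero_le _, Or.inl rfl, ?_, ?_⟩ hn2
    · rw [add_zero, hone t h]
      exact one_ne_zero
    · rw [mul_zero, add_zero, add_zero, hn]
  · -- rotation of three blocks
    refine evas_rot (p := p) 2 hp h0 hst hc hbc hF (m := 3) (by norm_num) 1 hu3 0 (one_pow _)
      (M := t - 3) (by rw [hn]; congr 1; omega) hn2 ?_
    have e2 : Lb 𝓕 2 (cl 2 (J 3 (xi : TY 𝓕)) * cl 2 (xi : TY 𝓕) ^ (t - 3)) = 0 := by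
      have h1 : t - 3 = 3 + (t / 3 - 2) * 3 := by omega
      rw [h1, pow_red hx4 3 _ (by norm_num)]
      exact Lb_flag 2 (by norm_num) ⟨F, hF1⟩ hF2 h3' 3 (by norm_num) le_rfl
    rw [hone (t - 3 + 1) (by omega), e2]
    exact one_ne_zero
  · -- rotation of five blocks
    refine evas_rot (p := p) 2 hp h0 hst hc hbc hF (m := 5) (by norm_num) u5 hu5 2 u5_pow
      (M := t - 5) (by rw [hn]; congr 1; omega) hn2 ?_
    have e2 : cl 2 (J 5 (xi : TY 𝓕)) = 0 := by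
      have : NeZero 5 := ⟨by norm_num⟩
      refine cl_zero 2 (J 5 xi) ⟨F, hF1⟩ ?_
      have h1 := (xi_iter (𝓕 := 𝓕) 5 1 ⟨F, hF1⟩).2 (by
        rw [pow_one]
        exact hF2.mono (by norm_num))
      exact h1
    rw [hone (t - 5 + 1) (by omega), e2, zero_mul, map_zero]
    exact one_ne_zero

/-- large numbers which are not `2 p` or `3 p` have a large prime power divisor with a cofactor
different from `2` and `3` -/
theorem exists_cofactor (B : ℕ) (T : Set ℕ) (hT : ∀ t ∈ T, 2 ≤ t ∧ t < 4) : ∃ n₀ : ℕ, ∀ n : ℕ,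
    n₀ ≤ n → (∀ p t : ℕ, p.Prime → t ∈ T → n ≠ t * p) →
    ∃ p c t : ℕ, p.Prime ∧ 1 ≤ c ∧ B ≤ p ^ c ∧ n = p ^ c * t ∧ t ∉ T := by
  obtain ⟨n₀, hn₀⟩ := exists_primePow_dvd (B * B + 1)
  refine ⟨n₀, fun n hn h => ?_⟩
  obtain ⟨p, c, hp, hc, hm, t, ht⟩ := hn₀ n hn
  have hBB : B ≤ B * B + 1 := by nlinarith
  by_cases htT : t ∈ T
  · have h2 := hT t htT
    have hc2 : 2 ≤ c := by
      by_contra hc2
      have hc1 : c = 1 := by omega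
      subst hc1
      exact h p t hp htT (by rw [ht, pow_one, mul_comm])
    obtain ⟨d, rfl⟩ : ∃ d, c = d + 1 := ⟨c - 1, by omega⟩
    refine ⟨p, d, p * t, hp, by omega, ?_, by rw [ht, pow_succ, mul_assoc], fun hT' => ?_⟩
    · by_contra hB
      push Not at hB
      have h3 : p ≤ p ^ d := Nat.le_self_pow (by omega) p
      have h4 : p ^ (d + 1) ≤ B * B := by
        rw [pow_succ]
        exact Nat.mul_le_mul hB.le (h3.trans hB.le)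
      omega
    · have h4 := hT _ hT'
      have h5 := hp.two_le
      have h6 : 2 * 2 ≤ p * t := Nat.mul_le_mul h5 h2.1
      omega
  · exact ⟨p, c, t, hp, hc, by omega, ht, htT⟩

end Pool.Agent.H23.EV
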